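import Mathlib

namespace Pool.Agent.H.MP_20f905_an

open Finset

open Classical in
noncomputable def ind (P : Prop) : ℝ := if P then 1 else 0

lemma ind_pos {P : Prop} (h : P) : ind P = 1 := if_pos h
lemma ind_neg {P : Prop} (h : ¬ P) : ind P = 0 := if_neg h
lemma ind_nonneg (P : Prop) : 0 ≤ ind P := by unfold ind; split_ifs <;> norm_num
lemma ind_le_one (P : Prop) : ind P ≤ 1 := by unfold ind; split_ifs <;> norm_num

noncomputable def av {α : Type} [Fintype α] (f : α → ℝ) : ℝ := (∑ t, f t) / Fintype.card α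

section
variable {α β : Type} [Fintype α] [Fintype β]

lemma av_le {f g : α → ℝ} (h : ∀ t, f t ≤ g t) : av f ≤ av g :=
  div_le_div_of_nonneg_right (sum_le_sum fun t _ => h t) (Nat.cast_nonneg _)

lemma av_add (f g : α → ℝ) : av (fun t => f t + g t) = av f + av g := by
  simp only [av, sum_add_distrib, add_div]

lemma av_mul (c : ℝ) (f : α → ℝ) : av (fun t => c * f t) = c * av f := by
  simp only [av, ← mul_sum, mul_div_assoc]

lemma av_const [Nonempty α] (c : ℝ) : av (fun _ : α => c) = c := by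
  have : (Fintype.card α : ℝ) ≠ 0 := by positivity
  simp only [av, sum_const, card_univ, nsmul_eq_mul]; field_simp

lemma av_nonneg {f : α → ℝ} (h : ∀ t, 0 ≤ f t) : 0 ≤ av f :=
  div_nonneg (sum_nonneg fun t _ => h t) (Nat.cast_nonneg _)

lemma av_le_one [Nonempty α] {f : α → ℝ} (h : ∀ t, f t ≤ 1) : av f ≤ 1 :=
  (av_le h).trans (av_const 1).le

lemma av_equiv (e : α ≃ β) (f : β → ℝ) : av (fun t => f (e t)) = av f := by
  simp only [av, e.sum_comp, Fintype.card_congr e]

lemma av_sum {ι : Type} (s : Finset ι) (f : ι → α → ℝ) :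
    av (fun t => ∑ i ∈ s, f i t) = ∑ i ∈ s, av (f i) := by
  simp only [av, ← sum_div]; rw [sum_comm]

lemma av_comm (f : α → β → ℝ) : av (fun a => av (f a)) = av fun b => av fun a => f a b := by
  simp only [av, ← sum_div]; rw [sum_comm, div_right_comm]

lemma av_abs {f g k : α → ℝ} (h : ∀ t, |f t - g t| ≤ k t) : |av f - av g| ≤ av k := by
  have a := av_le (f := f) (g := fun t => g t + k t) fun t => by linarith [(abs_le.1 (h t)).2]
  have b := av_le (f := g) (g := fun t => f t + k t) fun t => by linarith [(abs_le.1 (h t)).1]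
  rw [av_add] at a b
  rw [abs_le]; constructor <;> linarith

lemma av_prod (f : α × β → ℝ) : av f = av fun a => av fun b => f (a, b) := by
  simp only [av, ← sum_div, Fintype.sum_prod_type, Fintype.card_prod, Nat.cast_mul]
  rw [div_div, mul_comm]

end

variable {h h' : ℕ} [NeZero h] [NeZero h']

lemma av_shift (a : ZMod h) (f : ZMod h → ℝ) : av (fun t => f (t + a)) = av f :=
  av_equiv (Equiv.addRight a) f

def Gd (l : ZMod h' → ZMod h) (R : ℕ) (t : ZMod h') : Prop :=
  ∀ m : ℤ, |m| ≤ R → l (t + m) = l t + m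

lemma gd_bound {l : ZMod h' → ZMod h} {δ : ℝ} (hδ : av (fun t => ind (l (t + 1) ≠ l t + 1)) ≤ δ)
    (R : ℕ) : av (fun t => ind (¬ Gd l R t)) ≤ 2 * R * δ := by
  have : ∀ t, ind (¬ Gd l R t) ≤
      ∑ i ∈ range (2 * R), ind (l (t + ((i : ZMod h') - R) + 1) ≠ l (t + ((i : ZMod h') - R)) + 1) := by
    intro t
    by_cases c : ∃ i ∈ range (2 * R),
        l (t + ((i : ZMod h') - R) + 1) ≠ l (t + ((i : ZMod h') - R)) + 1
    · obtain ⟨i, hi, e⟩ := c
      exact (ind_le_one _).trans ((ind_pos e).symm.le.trans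
        (single_le_sum (f := fun i : ℕ => ind (l (t + ((i : ZMod h') - R) + 1) ≠
          l (t + ((i : ZMod h') - R)) + 1)) (fun i _ => ind_nonneg _) hi))
    · push Not at c
      have a : ∀ i : ℕ, i ≤ 2 * R → l (t + ((i : ZMod h') - R)) = l (t - R) + i := by
        intro i
        induction i with
        | zero => intro _; simp [sub_eq_add_neg]
        | succ i ih =>
          intro hi
          have := c i (mem_range.2 (by omega))
          rw [ih (by omega)] at this
          push_cast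
          rw [← add_assoc (l (t - R)), ← this]; congr 1; ring
      rw [ind_neg (P := ¬ Gd l R t) (not_not.2 fun m hm => ?_)]
      · exact sum_nonneg fun i _ => ind_nonneg _
      · rw [abs_le] at hm
        obtain ⟨i, hi⟩ := Int.eq_ofNat_of_zero_le (show 0 ≤ m + R by omega)
        have e : m = i - R := by omega
        have b1 := a i (by omega)
        have b2 := a R (by omega)
        rw [sub_self, add_zero] at b2
        rw [e]; push_cast
        rw [b1, b2]; ring
  refine (av_le this).trans ?_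
  rw [av_sum]
  refine (sum_le_sum (g := fun _ => δ) fun (i : ℕ) _ => ?_).trans (by simp)
  exact (av_shift ((i : ZMod h') - (R : ZMod h')) fun t => ind (l (t + 1) ≠ l t + 1)).le.trans hδ

noncomputable def cost (π : Equiv.Perm (ZMod h)) (f : ZMod h → Bool) (n : ℕ) : ℝ :=
  av fun t => ind (f (π (t + n) - n) ≠ f t)

noncomputable def dd (f : ZMod h → Bool) (κ : ZMod h) : ℝ := av fun t => ind (f (t + κ) ≠ f t)

noncomputable def cc (π : Equiv.Perm (ZMod h)) (f : ZMod h → Bool) : ℝ :=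
  av fun s => dd f (π s - s)

lemma dd_nonneg (f : ZMod h → Bool) (κ : ZMod h) : 0 ≤ dd f κ := av_nonneg fun _ => ind_nonneg _
lemma dd_le (f : ZMod h → Bool) (κ : ZMod h) : dd f κ ≤ 1 := av_le_one fun _ => ind_le_one _
lemma cc_nonneg (π : Equiv.Perm (ZMod h)) (f : ZMod h → Bool) : 0 ≤ cc π f :=
  av_nonneg fun _ => dd_nonneg _ _
lemma cc_le (π : Equiv.Perm (ZMod h)) (f : ZMod h → Bool) : cc π f ≤ 1 :=
  av_le_one fun _ => dd_le _ _

variable {l : ZMod h' → ZMod h} {π : Equiv.Perm (ZMod h)} {π' : Equiv.Perm (ZMod h')} {δ δ' : ℝ}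

lemma G1 (fib : ∀ φ : ZMod h → ℝ, av (fun t => φ (l t)) = av φ)
    (hδ : av (fun t => ind (l (t + 1) ≠ l t + 1)) ≤ δ)
    (hδ' : av (fun t => ind (l (π' t) ≠ π (l t))) ≤ δ') (f : ZMod h → Bool) (n : ℕ) :
    |cost π' (fun t => f (l t)) n - cost π f n| ≤ 4 * n * δ + δ' := by
  have e : cost π f n = av fun t => ind (f (π (l t + n) - n) ≠ f (l t)) :=
    (fib fun t => ind (f (π (t + n) - n) ≠ f t)).symm
  have b : av (fun t => ind (¬ Gd l n t) + ind (l (π' (t + n)) ≠ π (l (t + n))) +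
      ind (¬ Gd l n (π' (t + n)))) ≤ 4 * n * δ + δ' := by
    rw [av_add, av_add, av_shift (n : ZMod h') fun t => ind (l (π' t) ≠ π (l t)),
      av_shift (n : ZMod h') fun t => ind (¬ Gd l n (π' t)),
      av_equiv π' fun t => ind (¬ Gd l n t)]
    linarith [gd_bound hδ n]
  have p : ∀ t, |ind (f (l (π' (t + n) - n)) ≠ f (l t)) - ind (f (π (l t + n) - n) ≠ f (l t))| ≤
      ind (¬ Gd l n t) + ind (l (π' (t + n)) ≠ π (l (t + n))) + ind (¬ Gd l n (π' (t + n))) := by
    intro t
    have n1 := ind_nonneg (¬ Gd l n t)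
    have n2 := ind_nonneg (l (π' (t + n)) ≠ π (l (t + n)))
    have n3 := ind_nonneg (¬ Gd l n (π' (t + n)))
    have q : |ind (f (l (π' (t + n) - n)) ≠ f (l t)) - ind (f (π (l t + n) - n) ≠ f (l t))| ≤ 1 := by
      rw [abs_le]
      constructor <;> linarith [ind_nonneg (f (l (π' (t + n) - n)) ≠ f (l t)),
        ind_le_one (f (l (π' (t + n) - n)) ≠ f (l t)), ind_nonneg (f (π (l t + n) - n) ≠ f (l t)),
        ind_le_one (f (π (l t + n) - n) ≠ f (l t))]
    by_cases c1 : Gd l n t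
    swap
    · rw [ind_pos c1]; linarith
    by_cases c2 : l (π' (t + n)) = π (l (t + n))
    swap
    · rw [ind_pos c2]; linarith
    by_cases c3 : Gd l n (π' (t + n))
    swap
    · rw [ind_pos c3]; linarith
    have a1 := c1 n (by simp)
    have a3 := c3 (-n) (by simp)
    push_cast at a1 a3
    have : l (π' (t + n) - n) = π (l t + n) - n := by
      rw [sub_eq_add_neg (π' _), a3, c2, a1, ← sub_eq_add_neg]
    rw [this, sub_self, abs_zero]
    linarith
  rw [e]
  exact (av_abs p).trans b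

lemma blocks (γ : ℕ → ℝ) (k : ℕ) (hk : 0 < k) (B : ℝ) (h0 : ∀ n, 0 ≤ γ n)
    (hB : ∀ n, ∑ i ∈ range k, γ (n + i) ≤ k * B) (B0 : 0 ≤ B) (N : ℕ) :
    ∑ n ∈ range N, γ n ≤ (N + k) * B := by
  have a : ∀ Q : ℕ, ∑ n ∈ range (k * Q), γ n ≤ k * Q * B := fun Q => by
    induction Q with
    | zero => simp
    | succ Q ih =>
      rw [mul_add, mul_one, sum_range_add]
      have := hB (k * Q)
      push_cast; linarith
  have b : N ≤ k * (N / k + 1) := (Nat.lt_mul_div_succ N hk).le
  have c : k * (N / k + 1) ≤ N + k := by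
    have := Nat.mul_div_le N k
    rw [mul_add, mul_one]; omega
  refine (sum_le_sum_of_subset_of_nonneg (range_mono b) fun i _ _ => h0 i).trans
    ((a _).trans (mul_le_mul_of_nonneg_right ?_ B0))
  exact_mod_cast c

lemma sum_zmod (φ : ZMod h → ℝ) (a : ZMod h) : ∑ i ∈ range h, φ (a + i) = h * av φ := by
  rw [← av_equiv (Equiv.addLeft a), av, ZMod.card,
    mul_div_cancel₀ _ (by have := NeZero.ne h; positivity)]
  symm
  refine sum_bij' (fun t _ => t.val) (fun i _ => (i : ZMod h))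
    (fun t _ => mem_range.2 (ZMod.val_lt t)) (fun _ _ => mem_univ _)
    (fun t _ => ZMod.natCast_zmod_val t) (fun i hi => ZMod.val_cast_of_lt (mem_range.1 hi))
    fun t _ => by simp

lemma G2 (fib : ∀ φ : ZMod h → ℝ, av (fun t => φ (l t)) = av φ)
    (hδ : av (fun t => ind (l (t + 1) ≠ l t + 1)) ≤ δ) (h1 : 2 * h * δ ≤ 1)
    {U : ZMod h' → Prop}
    (hU : ∀ s, U s → ∃ m : ℤ, |m| ≤ h ∧ π' s = s + m ∧ (m : ZMod h) = π (l s) - l s)
    {β : ℝ} (hβ : av (fun s => ind (¬ U s)) ≤ β) (f : ZMod h → Bool) (N : ℕ) :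
    ∑ n ∈ range N, cost π' (fun t => f (l t)) (n + 1) ≤
      N * (cc π f + β + 4 * h * δ) + 2 * h := by
  have g0 := gd_bound hδ h
  have g1 : 0 ≤ 2 * h * δ := (av_nonneg fun _ => ind_nonneg _).trans g0
  let g : ZMod h → ZMod h → ℝ := fun v u => ind (f (v + (π u - u)) ≠ f v)
  let γ : ℕ → ℝ := fun n => av fun t => g (l t) (l (t + (n + 1 : ℕ)))
  have a : ∀ n, cost π' (fun t => f (l t)) (n + 1) ≤ β + 2 * h * δ + γ n := fun n => by
    have p : ∀ t, ind (f (l (π' (t + (n + 1 : ℕ)) - (n + 1 : ℕ))) ≠ f (l t)) ≤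
        ind (¬ U (t + (n + 1 : ℕ))) + ind (¬ Gd l h t) + g (l t) (l (t + (n + 1 : ℕ))) := by
      intro t
      have n1 := ind_nonneg (¬ U (t + (n + 1 : ℕ)))
      have n2 := ind_nonneg (¬ Gd l h t)
      have n3 : 0 ≤ g (l t) (l (t + (n + 1 : ℕ))) := ind_nonneg _
      have q := ind_le_one (f (l (π' (t + (n + 1 : ℕ)) - (n + 1 : ℕ))) ≠ f (l t))
      by_cases c1 : U (t + (n + 1 : ℕ))
      swap
      · rw [ind_pos c1]; linarith
      by_cases c2 : Gd l h t
      swap
      · rw [ind_pos c2]; linarith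
      obtain ⟨m, m1, m2, m3⟩ := hU _ c1
      rw [m2, add_right_comm, add_sub_cancel_right, c2 m m1, m3]
      exact le_add_of_nonneg_left (by linarith)
    have := av_le p
    rw [av_add, av_add, av_shift ((n + 1 : ℕ) : ZMod h') fun t => ind (¬ U t)] at this
    exact this.trans (by linarith)
  have b : ∀ n, ∑ i ∈ range h, γ (n + i) ≤ h * (cc π f + 2 * h * δ) := fun n => by
    have p : ∀ t, ∑ i ∈ range h, g (l t) (l (t + (n + i + 1 : ℕ))) ≤
        h * av (g (l t)) + h * ind (¬ Gd l h (t + (n + 1 : ℕ))) := by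
      intro t
      by_cases c : Gd l h (t + (n + 1 : ℕ))
      · rw [ind_neg (not_not.2 c), mul_zero, add_zero, ← sum_zmod _ (l (t + (n + 1 : ℕ)))]
        refine (sum_congr rfl fun i hi => ?_).le
        have := c i (by have := mem_range.1 hi; rw [abs_le]; omega)
        push_cast at this ⊢
        rw [← this]; congr 2; ring
      · rw [ind_pos c, mul_one]
        have : 0 ≤ h * av (g (l t)) := mul_nonneg (Nat.cast_nonneg _) (av_nonneg fun _ => ind_nonneg _)
        refine (sum_le_sum (g := fun _ => 1) fun i _ => ind_le_one _).trans ?_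
        simp only [sum_const, card_range, nsmul_eq_mul, mul_one]; linarith
    have := av_le p
    rw [av_sum, av_add, av_mul, av_mul, fib fun v => av (g v), av_comm,
      av_shift ((n + 1 : ℕ) : ZMod h') fun t => ind (¬ Gd l h t)] at this
    refine this.trans ?_
    rw [mul_add]
    exact add_le_add le_rfl (mul_le_mul_of_nonneg_left g0 (Nat.cast_nonneg _))
  have c := blocks γ h (NeZero.pos h) _ (fun n => av_nonneg fun _ => ind_nonneg _) b
    (add_nonneg (cc_nonneg _ _) g1) N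
  refine (sum_le_sum fun n _ => a n).trans ?_
  rw [sum_add_distrib, sum_const, card_range, nsmul_eq_mul]
  have := mul_le_mul_of_nonneg_left (add_le_add (cc_le π f) h1) (Nat.cast_nonneg (α := ℝ) h)
  nlinarith

lemma G3 (fib : ∀ φ : ZMod h → ℝ, av (fun t => φ (l t)) = av φ)
    (hδ : av (fun t => ind (l (t + 1) ≠ l t + 1)) ≤ δ) {U : ZMod h' → Prop}
    (hU : ∀ s, U s → ∃ m : ℤ, |m| ≤ h ∧ π' s = s + m ∧ (m : ZMod h) = π (l s) - l s)
    (f : ZMod h → Bool) {κ β : ℝ}
    (hκ : av (fun s => ind (U s) * dd f (π (l s) - l s)) ≤ κ)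
    (hβ : av (fun s => ind (¬ U s) * dd (fun t => f (l t)) (π' s - s)) ≤ β) :
    cc π' (fun t => f (l t)) ≤ κ + 2 * h * δ + β := by
  have g0 := gd_bound hδ h
  have g1 : 0 ≤ 2 * h * δ := (av_nonneg fun _ => ind_nonneg _).trans g0
  have p : ∀ s, dd (fun t => f (l t)) (π' s - s) ≤ ind (U s) * dd f (π (l s) - l s) + 2 * h * δ +
      ind (¬ U s) * dd (fun t => f (l t)) (π' s - s) := by
    intro s
    by_cases c : U s
    · rw [ind_pos c, ind_neg (not_not.2 c), one_mul, zero_mul, add_zero]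
      obtain ⟨m, m1, m2, m3⟩ := hU _ c
      rw [m2, add_sub_cancel_left, ← m3]
      have q : ∀ t, ind (f (l (t + m)) ≠ f (l t)) ≤ ind (f (l t + m) ≠ f (l t)) + ind (¬ Gd l h t) := by
        intro t
        by_cases c2 : Gd l h t
        · rw [c2 m m1]; exact le_add_of_nonneg_right (ind_nonneg _)
        · rw [ind_pos c2]
          linarith [ind_le_one (f (l (t + m)) ≠ f (l t)), ind_nonneg (f (l t + m) ≠ f (l t))]
      have := av_le q
      rw [av_add, fib fun v => ind (f (v + m) ≠ f v)] at this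
      exact this.trans (add_le_add le_rfl g0)
    · rw [ind_pos c, ind_neg c]; linarith
  have := av_le p
  rw [av_add, av_add, av_const] at this
  exact this.trans (by linarith)

def Step (l : ZMod h' → ZMod h) (π : Equiv.Perm (ZMod h)) (π' : Equiv.Perm (ZMod h'))
    (θ δ : ℝ) : Prop :=
  (∀ φ : ZMod h → ℝ, av (fun t => φ (l t)) = av φ) ∧
  av (fun t => ind (l (t + 1) ≠ l t + 1)) ≤ δ ∧
  av (fun t => ind (l (π' t) ≠ π (l t))) ≤ 2 * h * δ ∧
  ∀ f : ZMod h → Bool, (∀ N : ℕ, ∑ n ∈ range N, cost π' (fun t => f (l t)) (n + 1) ≤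
      N * (cc π f + θ + 6 * h * δ) + 2 * h) ∧
    cc π' (fun t => f (l t)) ≤ (1 - θ) * cc π f + 2 * θ ^ 2 + 4 * h * δ

lemma stepE (π : Equiv.Perm (ZMod h)) (fib : ∀ φ : ZMod h → ℝ, av (fun t => φ (l t)) = av φ)
    (hδ : av (fun t => ind (l (t + 1) ≠ l t + 1)) ≤ δ) (h1 : 2 * h * δ ≤ 1) :
    ∃ π', Step l π π' 0 δ := by
  have g0 := gd_bound hδ h
  have kb : ∀ s, |(((π (l s) - l s).val : ℕ) : ℤ)| ≤ h := fun s => by
    have := ZMod.val_lt (π (l s) - l s)
    rw [abs_le]; omega
  have kl : ∀ s, Gd l h s → l (s + ((π (l s) - l s).val : ℕ)) = π (l s) := fun s hs => by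
    have := hs _ (kb s)
    rw [Int.cast_natCast, Int.cast_natCast, ZMod.natCast_zmod_val] at this
    rw [this]; ring
  obtain ⟨π', hπ⟩ := Equiv.Perm.exists_extending_pair (fun s : {s // Gd l h s} => s.1)
    (fun s => s.1 + ((π (l s.1) - l s.1).val : ℕ)) Subtype.val_injective fun a b e => by
      have e1 := congrArg l e
      simp only [kl _ a.2, kl _ b.2] at e1
      have e2 := π.injective e1
      simp only [e2, add_left_inj] at e
      exact Subtype.ext e
  have hU : ∀ s, Gd l h s → ∃ m : ℤ, |m| ≤ h ∧ π' s = s + m ∧ (m : ZMod h) = π (l s) - l s :=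
    fun s hs => ⟨_, kb s, by rw [Int.cast_natCast]; exact hπ ⟨s, hs⟩, by
      rw [Int.cast_natCast, ZMod.natCast_zmod_val]⟩
  refine ⟨π', fib, hδ, (av_le fun t => ?_).trans g0, fun f => ⟨fun N => ?_, ?_⟩⟩
  · by_cases c : Gd l h t
    · rw [ind_neg (not_not.2 ((congrArg l (hπ ⟨t, c⟩)).trans (kl t c)))]; exact ind_nonneg _
    · rw [ind_pos c]; exact ind_le_one _
  · refine (G2 fib hδ h1 hU g0 f N).trans (le_of_eq ?_); ring
  · refine (G3 fib hδ hU f (κ := cc π f) (β := 2 * h * δ) ?_ ?_).trans (le_of_eq ?_)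
    · rw [cc, ← fib]
      exact av_le fun s => mul_le_of_le_one_left (dd_nonneg _ _) (ind_le_one _)
    · exact (av_le fun s => mul_le_of_le_one_right (ind_nonneg _) (dd_le _ _)).trans g0
    · ring

end Pool.Agent.H.MP_20f905_an
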