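import Mathlib
import Pool.Agent.H.MP_20f905_an.A

namespace Pool.Agent.H.MP_20f905_an

open Finset

lemma avFin (q c : ℕ) (hc : c ≤ q) : av (fun p : Fin q => ind (p.val < c)) = c / q := by
  classical
  rw [av, Fintype.card_fin, Fin.sum_univ_eq_sum_range (fun p => ind (p < c))]
  congr 1
  rw [← sum_range_add_sum_Ico _ hc, sum_congr rfl fun i hi => ind_pos (mem_range.1 hi),
    sum_congr rfl fun i hi => ind_neg (not_lt.2 (mem_Ico.1 hi).1)]
  simp

lemma av_single {α : Type} [Fintype α] (c : α) : av (fun t => ind (t = c)) = 1 / Fintype.card α := by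
  classical
  rw [av, sum_eq_single c (fun b _ hb => ind_neg hb) (by simp), ind_pos rfl]

lemma stepC {h : ℕ} [NeZero h] (π : Equiv.Perm (ZMod h)) (Θ : ℕ) (hΘ : 0 < Θ) {δ : ℝ}
    (δ0 : 0 < δ) (h1 : 2 * h * δ ≤ 1) :
    ∃ (q : ℕ) (_ : NeZero q) (E : ZMod (h * q) ≃ ZMod h × Fin q)
      (π' : Equiv.Perm (ZMod (h * q))), Step (fun t => (E t).1) π π' (1 / Θ) δ := by
  classical
  obtain ⟨w, hw⟩ := exists_nat_gt (2 / δ)
  have w0 : 0 < w := by
    have : (0 : ℝ) < w := lt_trans (by positivity) hw
    exact_mod_cast this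
  have h0 := NeZero.pos h
  obtain ⟨q, hq⟩ : ∃ q, q = h * w * Θ := ⟨_, rfl⟩
  have q1 : h * w ≤ q := hq ▸ Nat.le_mul_of_pos_right _ hΘ
  have q0 : 0 < q := lt_of_lt_of_le (Nat.mul_pos h0 w0) q1
  haveI : NeZero q := ⟨q0.ne'⟩
  let φ : ZMod (h * q) →+* ZMod h := ZMod.castHom (dvd_mul_right h q) (ZMod h)
  have φv : ∀ t, φ t = (t.val : ZMod h) := fun t => by
    rw [ZMod.natCast_val]; exact ZMod.castHom_apply t
  let a : ℕ → ZMod h := fun p => if p < h * w then ((p / w : ℕ) : ZMod h) else 0
  let P : ZMod (h * q) → Fin q := fun t =>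
    ⟨t.val / h, Nat.div_lt_of_lt_mul (ZMod.val_lt t)⟩
  have inj : Function.Injective fun t => (φ t + a (P t), P t) := fun t t' e => by
    have e2 : P t = P t' := congrArg Prod.snd e
    have e1 : φ t + a (P t) = φ t' + a (P t') := congrArg Prod.fst e
    rw [e2, add_left_inj, φv, φv, ZMod.natCast_eq_natCast_iff'] at e1
    have e3 : t.val / h = t'.val / h := congrArg Fin.val e2
    apply ZMod.val_injective
    rw [← Nat.div_add_mod t.val h, ← Nat.div_add_mod t'.val h, e1, e3]
  let E : ZMod (h * q) ≃ ZMod h × Fin q := Equiv.ofBijective _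
    ((Fintype.bijective_iff_injective_and_card _).2 ⟨inj, by simp⟩)
  have E1 : ∀ t, (E t).1 = φ t + a (P t) := fun _ => rfl
  have E2 : ∀ t, (E t).2 = P t := fun _ => rfl
  have lt1 : ∀ k p : ℕ, ((p / w + k) % h) * w + p % w < h * w := fun k p => by
    have a1 := Nat.mod_lt (p / w + k) h0
    have a2 := Nat.mod_lt p w0
    nlinarith
  have dv : ∀ k p : ℕ, (((p / w + k) % h) * w + p % w) / w = (p / w + k) % h := fun k p => by
    rw [add_comm, Nat.add_mul_div_right _ _ w0, Nat.div_eq_of_lt (Nat.mod_lt p w0), zero_add]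
  let ψ : ZMod h → Fin q → Fin q := fun u p =>
    if p.val < h * w then ⟨((p / w + (π u - u).val) % h) * w + p % w, (lt1 _ _).trans_le q1⟩ else p
  have ψi : ∀ u, Function.Injective (ψ u) := fun u p p' e => by
    simp only [ψ] at e
    split_ifs at e with c c' c'
    · have e1 := congrArg Fin.val e
      simp only at e1
      have e2 := congrArg (· / w) e1
      have e3 := congrArg (· % w) e1
      simp only [dv] at e2
      simp only [Nat.mul_add_mod_of_lt (Nat.mod_lt _ w0)] at e3
      have e4 : p.val / w ≡ p'.val / w [MOD h] := Nat.ModEq.add_right_cancel' _ e2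
      have e5 := Nat.ModEq.eq_of_lt_of_lt e4 (Nat.div_lt_of_lt_mul (by rwa [mul_comm]))
        (Nat.div_lt_of_lt_mul (by rwa [mul_comm]))
      apply Fin.ext
      rw [← Nat.div_add_mod p.val w, ← Nat.div_add_mod p'.val w, e3, e5]
    · exact absurd (e ▸ lt1 _ _ : p'.val < h * w) c'
    · exact absurd (e ▸ lt1 _ _ : p.val < h * w) c
    · exact e
  let F : Equiv.Perm (ZMod h × Fin q) := Equiv.ofBijective (fun x => (π x.1, ψ x.1 x.2))
    (Finite.injective_iff_bijective.1 fun x y e => by
      have e1 := π.injective (congrArg Prod.fst e)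
      have e2 : ψ x.1 x.2 = ψ y.1 y.2 := congrArg Prod.snd e
      rw [e1] at e2
      exact Prod.ext e1 (ψi _ e2))
  let π' : Equiv.Perm (ZMod (h * q)) := E.trans (F.trans E.symm)
  have p0 : ∀ t, E (π' t) = (π (E t).1, ψ (E t).1 (E t).2) := fun t => E.apply_symm_apply _
  have p1 : ∀ t, (E (π' t)).1 = π (E t).1 := fun t => by rw [p0]
  have p2 : ∀ t, P (π' t) = ψ (E t).1 (P t) := fun t => by rw [← E2, p0, E2]
  have fib : ∀ f : ZMod h → ℝ, av (fun t => f (E t).1) = av f := fun f => by
    rw [av_equiv E fun x => f x.1, av_prod]; simp only [av_const]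
  have θe : ((h * w : ℕ) : ℝ) / q = 1 / Θ := by
    rw [hq]; push_cast; field_simp
  have nU : av (fun t => ind (¬ h * w ≤ (P t).val)) = 1 / Θ := by
    have := av_equiv E fun x => ind (x.2.val < h * w)
    simp only [not_le]
    rw [show (fun t => ind ((P t).val < h * w)) = fun t => ind ((E t).2.val < h * w) from rfl, this,
      av_prod]
    simp only [avFin q _ q1, av_const, θe]
  have hδ : av (fun t => ind ((E (t + 1)).1 ≠ (E t).1 + 1)) ≤ δ := by
    have p : ∀ t, ind ((E (t + 1)).1 ≠ (E t).1 + 1) ≤
        ∑ j ∈ range (h + 1), ind (t = ((j * (h * w) : ℕ) : ZMod (h * q)) - 1) := by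
      intro t
      by_cases c : h * w ∣ (t + 1).val ∧ (t + 1).val ≤ h * (h * w)
      · obtain ⟨⟨j, hj⟩, c⟩ := c
        have j1 : j ≤ h := by
          rw [hj, mul_comm h (h * w)] at c
          exact Nat.le_of_mul_le_mul_left c (Nat.mul_pos h0 w0)
        refine (ind_le_one _).trans ((ind_pos ?_).symm.le.trans (single_le_sum
          (f := fun j : ℕ => ind (t = ((j * (h * w) : ℕ) : ZMod (h * q)) - 1))
          (fun i _ => ind_nonneg _) (mem_range.2 (Nat.lt_succ_of_le j1))))
        rw [mul_comm j, ← hj, ZMod.natCast_zmod_val, add_sub_cancel_right]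
      · rw [ind_neg]
        · exact sum_nonneg fun _ _ => ind_nonneg _
        rw [not_not, E1, E1, map_add, map_one, add_right_comm, add_left_inj, add_right_inj]
        have v : (t + 1).val = t.val + 1 := by
          have e : t + 1 = ((t.val + 1 : ℕ) : ZMod (h * q)) := by simp
          have := ZMod.val_lt t
          by_cases z : t.val + 1 = h * q
          · rw [e, z, ZMod.natCast_self, ZMod.val_zero] at c
            exact absurd ⟨dvd_zero _, Nat.zero_le _⟩ c
          · rw [e, ZMod.val_cast_of_lt (by omega)]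
        rw [v] at c
        simp only [a, P, v, Nat.div_lt_iff_lt_mul h0, Nat.div_div_eq_div_mul]
        by_cases d : h * w ∣ t.val + 1
        · have : h * w * h < t.val + 1 := by
            rw [mul_comm]; exact not_le.1 fun z => c ⟨d, z⟩
          rw [if_neg (by omega), if_neg (by omega)]
        · rw [Nat.succ_div_of_not_dvd d]
          have : t.val + 1 ≠ h * w * h := fun z => d (z ▸ dvd_mul_right _ _)
          by_cases z : t.val < h * w * h
          · rw [if_pos z, if_pos (by omega)]
          · rw [if_neg z, if_neg (by omega)]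
    refine (av_le p).trans ?_
    rw [av_sum]
    simp only [av_single, sum_const, card_range, nsmul_eq_mul, ZMod.card]
    have b1 : (1 : ℝ) ≤ h := by exact_mod_cast h0
    have b2 : (w : ℝ) ≤ q := by exact_mod_cast (Nat.le_mul_of_pos_left w h0).trans q1
    rw [div_lt_iff₀ δ0] at hw
    have b3 : (0 : ℝ) < q := by exact_mod_cast q0
    push_cast
    rw [mul_one_div, div_le_iff₀ (by positivity)]
    nlinarith [mul_le_mul_of_nonneg_left b2 δ0.le]
  have hU : ∀ s, h * w ≤ (P s).val → ∃ m : ℤ, |m| ≤ h ∧ π' s = s + m ∧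
      (m : ZMod h) = π (E s).1 - (E s).1 := fun s hs => by
    have e1 : P (π' s) = P s := by rw [p2]; exact if_neg (not_lt.2 hs)
    have e2 : a (P s) = 0 := if_neg (not_lt.2 hs)
    refine ⟨((π' s).val : ℤ) - s.val, ?_, by simp, ?_⟩
    · have e3 : (π' s).val / h = s.val / h := congrArg Fin.val e1
      have a1 := Nat.div_add_mod (π' s).val h
      have a2 := Nat.div_add_mod s.val h
      have a3 := Nat.mod_lt (π' s).val h0
      have a4 := Nat.mod_lt s.val h0
      rw [e3] at a1
      rw [abs_le]; omega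
    · rw [← p1, E1, E1, e1, e2, φv, φv]; push_cast; ring
  have g1 : 0 ≤ 2 * h * δ := by positivity
  refine ⟨q, inferInstance, E, π', fib, hδ, ?_, fun f => ⟨fun N => ?_, ?_⟩⟩
  · simp only [p1, ne_eq, not_true, ind_neg not_false, av_const]; exact g1
  · refine (G2 fib hδ h1 hU nU.le f N).trans ?_
    have : (0 : ℝ) ≤ N * (2 * h * δ) := by positivity
    linarith
  · refine (G3 fib hδ hU f (κ := (1 - 1 / Θ) * cc π f) (β := 2 * (1 / Θ) ^ 2) (le_of_eq ?_) ?_).trans
      (by linarith)
    · refine Eq.trans (congrArg av (funext fun s => ?_)) ((av_equiv E fun x : ZMod h × Fin q =>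
        dd f (π x.1 - x.1) * (1 + -1 * ind (x.2.val < h * w))).trans ?_)
      · by_cases c : h * w ≤ (P s).val
        · rw [ind_pos c, E2, ind_neg (not_lt.2 c)]; ring
        · rw [ind_neg c, E2, ind_pos (not_le.1 c)]; ring
      rw [av_prod]
      simp only [av_mul, av_add, av_const, avFin q _ q1, θe]
      rw [cc, ← av_mul]; congr 1; funext s; ring
    · refine (av_le (g := fun s => 2 * (1 / Θ) * ind (¬ h * w ≤ (P s).val)) fun s => ?_).trans
        (by rw [av_mul, nU]; exact le_of_eq (by ring))
      by_cases c : h * w ≤ (P s).val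
      · rw [ind_neg (not_not.2 c)]; simp
      rw [ind_pos c, one_mul, mul_one]
      have z : φ (π' s - s) = 0 := by
        have b1 := p1 s
        have c' := not_le.1 c
        have b2 : a (P (π' s)) = a (P s) + (π (E s).1 - (E s).1) := by
          rw [p2]
          simp only [ψ, if_pos c', a, if_pos (lt1 _ _), dv]
          simp
        rw [E1, b2] at b1
        rw [map_sub]
        linear_combination b1 + E1 s
      have p : ∀ t, ind (f (E (t + (π' s - s))).1 ≠ f (E t).1) ≤
          ind (¬ h * w ≤ (P (t + (π' s - s))).val) + ind (¬ h * w ≤ (P t).val) := by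
        intro t
        have n1 := ind_nonneg (¬ h * w ≤ (P (t + (π' s - s))).val)
        have n2 := ind_nonneg (¬ h * w ≤ (P t).val)
        have n3 := ind_le_one (f (E (t + (π' s - s))).1 ≠ f (E t).1)
        by_cases c1 : h * w ≤ (P (t + (π' s - s))).val
        swap
        · rw [ind_pos c1]; linarith
        by_cases c2 : h * w ≤ (P t).val
        swap
        · rw [ind_pos c2]; linarith
        rw [ind_neg]
        · linarith
        rw [not_not, E1, E1, map_add, z, add_zero]
        simp only [a, if_neg (not_lt.2 c1), if_neg (not_lt.2 c2)]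
      have := av_le p
      rw [av_add, av_shift (π' s - s) fun t => ind (¬ h * w ≤ (P t).val), nU] at this
      exact this.trans (le_of_eq (by ring))

end Pool.Agent.H.MP_20f905_an
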