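import Mathlib
import Pool.Agent.H.MP_20f905_an.A
import Pool.Agent.H.MP_a7cd30_an.A

namespace Pool.Agent.H.MP_20f905_an

open MeasureTheory Set Filter Topology Pool.Agent.H.MP_a7cd30_an

lemma mu_eq : mu = volume.restrict (Ico (0 : ℝ) 1) := Measure.restrict_congr_set Ico_ae_eq_Icc.symm

lemma ae_I : ∀ᵐ x ∂mu, x ∈ Ico (0 : ℝ) 1 := by rw [mu_eq]; exact ae_restrict_mem measurableSet_Ico

variable {h : ℕ} [NeZero h]

noncomputable def fin (h : ℕ) [NeZero h] (x : ℝ) : Fin h := Fin.ofNat h ⌊(h : ℝ) * x⌋₊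

lemma hpos (h : ℕ) [NeZero h] : (0 : ℝ) < h := by exact_mod_cast NeZero.pos h

lemma fin_val {x : ℝ} (hx : x ∈ Ico (0 : ℝ) 1) : (fin h x).val = ⌊(h : ℝ) * x⌋₊ :=
  Nat.mod_eq_of_lt ((Nat.floor_lt (mul_nonneg (hpos h).le hx.1)).2 (by nlinarith [hx.2, hpos h]))

lemma fin_meas : Measurable (fin h) :=
  (measurable_from_top (f := Fin.ofNat h)).comp (Nat.measurable_floor.comp (by fun_prop))

lemma cell (u : Fin h) (x : ℝ) :
    (x ∈ Ico (0 : ℝ) 1 ∧ fin h x = u) ↔ x ∈ Ico ((u : ℝ) / h) ((u + 1) / h) := by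
  have h0 := hpos h
  rw [mem_Ico (a := (u : ℝ) / h), div_le_iff₀ h0, lt_div_iff₀ h0, mul_comm x]
  constructor
  · rintro ⟨hx, rfl⟩
    rw [fin_val hx]
    exact ⟨Nat.floor_le (mul_nonneg h0.le hx.1), Nat.lt_floor_add_one _⟩
  · rintro ⟨a, b⟩
    have u1 : (u : ℝ) + 1 ≤ h := by exact_mod_cast u.2
    have u0 : (0 : ℝ) ≤ u := Nat.cast_nonneg _
    have hx : x ∈ Ico (0 : ℝ) 1 := ⟨by nlinarith, by nlinarith⟩
    exact ⟨hx, Fin.ext (by rw [fin_val hx, Nat.floor_eq_iff (by linarith)]; exact ⟨a, b⟩)⟩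

lemma mu_split {S : Set ℝ} (hS : MeasurableSet S) :
    mu S = ∑ u : Fin h, volume (S ∩ Ico ((u : ℝ) / h) ((u + 1) / h)) := by
  rw [mu_eq, Measure.restrict_apply hS, ← tsum_fintype (L := SummationFilter.unconditional _),
    ← measure_iUnion]
  · congr 1
    ext x
    simp only [mem_iUnion, mem_inter_iff, ← cell]
    exact ⟨fun a => ⟨_, a.1, a.2, rfl⟩, fun ⟨_, a⟩ => ⟨a.1, a.2.1⟩⟩
  · intro u v huv
    refine disjoint_left.2 fun x a b => huv ?_
    rw [← ((cell u x).2 a.2).2, ← ((cell v x).2 b.2).2]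
  · exact fun u => hS.inter measurableSet_Ico

lemma law (Q : Fin h → Prop) : mu.real {x | Q (fin h x)} = av fun u => ind (Q u) := by
  have h0 := hpos h
  rw [Measure.real, mu_split (h := h) (S := {x | Q (fin h x)})
    (fin_meas (MeasurableSet.of_discrete (s := {u | Q u}))),
    ENNReal.toReal_sum fun u _ => ((measure_mono inter_subset_right).trans_lt
      measure_Ico_lt_top).ne, av, Finset.sum_div, Fintype.card_fin]
  refine Finset.sum_congr rfl fun u _ => ?_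
  by_cases c : Q u
  · rw [ind_pos c, inter_eq_right.2 fun x hx => by
      show Q (fin h x); rwa [((cell u x).2 hx).2], Real.volume_Ico,
      ENNReal.toReal_ofReal (by rw [← sub_div]; norm_num), ← sub_div]
    norm_num
  · rw [ind_neg c, eq_empty_of_forall_notMem (s := {x | Q (fin h x)} ∩ _) fun x hx =>
      c (((cell u x).2 hx.2).2 ▸ hx.1)]
    simp

open Classical in
noncomputable def ie (σ : Equiv.Perm (Fin h)) (x : ℝ) : ℝ :=
  if x ∈ Ico (0 : ℝ) 1 then x + ((σ (fin h x) : ℝ) - (fin h x : ℝ)) / h else x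

lemma ie_cell (σ : Equiv.Perm (Fin h)) (u : Fin h) (x : ℝ) :
    x ∈ Ico ((u : ℝ) / h) ((u + 1) / h) ↔
      x + ((σ u : ℝ) - u) / h ∈ Ico ((σ u : ℝ) / h) ((σ u + 1) / h) := by
  simp only [mem_Ico, sub_div, add_div]
  constructor <;> rintro ⟨a, b⟩ <;> constructor <;> linarith

lemma ie_mem (σ : Equiv.Perm (Fin h)) {x : ℝ} (hx : x ∈ Ico (0 : ℝ) 1) :
    ie σ x ∈ Ico (0 : ℝ) 1 ∧ fin h (ie σ x) = σ (fin h x) := by
  rw [ie, if_pos hx, cell, ← ie_cell, ← cell]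
  exact ⟨hx, rfl⟩

lemma ie_inv (σ : Equiv.Perm (Fin h)) (x : ℝ) : ie σ.symm (ie σ x) = x := by
  by_cases hx : x ∈ Ico (0 : ℝ) 1
  · rw [ie, if_pos (ie_mem σ hx).1, (ie_mem σ hx).2, ie, if_pos hx, Equiv.symm_apply_apply]
    ring
  · simp only [ie, if_neg hx]

lemma ie_meas (σ : Equiv.Perm (Fin h)) : Measurable (ie σ) :=
  Measurable.ite measurableSet_Ico (measurable_id.add ((measurable_from_top
    (f := fun u : Fin h => ((σ u : ℝ) - (u : ℝ)) / h)).comp fin_meas)) measurable_id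

lemma ie_mp (σ : Equiv.Perm (Fin h)) : MeasurePreserving (ie σ) mu mu := by
  refine ⟨ie_meas σ, Measure.ext fun B hB => ?_⟩
  rw [Measure.map_apply (ie_meas σ) hB, mu_split (h := h) (ie_meas σ hB), mu_split (h := h) hB,
    ← Equiv.sum_comp σ fun u : Fin h => volume (B ∩ Ico ((u : ℝ) / h) ((u + 1) / h))]
  refine Finset.sum_congr rfl fun u _ => ?_
  rw [← measure_preimage_add_right volume (((σ u : ℝ) - u) / h) (B ∩ _)]
  congr 1
  ext x
  simp only [mem_inter_iff, mem_preimage, ← ie_cell]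
  refine and_congr_left fun hx => ?_
  obtain ⟨a, b⟩ := (cell u x).2 hx
  rw [ie, if_pos a, b]

noncomputable def IE (e : ZMod h ≃ Fin h) (ρ : Equiv.Perm (ZMod h)) : G :=
  ⟨{ toFun := ie (e.permCongr ρ)
     invFun := ie (e.permCongr ρ).symm
     left_inv := ie_inv _
     right_inv := ie_inv (e.permCongr ρ).symm
     measurable_toFun := ie_meas _
     measurable_invFun := ie_meas _ }, ie_mp _⟩

noncomputable def pos (e : ZMod h ≃ Fin h) (x : ℝ) : ZMod h := e.symm (fin h x)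

lemma IE_pos (e : ZMod h ≃ Fin h) (ρ : Equiv.Perm (ZMod h)) {x : ℝ} (hx : x ∈ Ico (0 : ℝ) 1) :
    ((IE e ρ).1 x ∈ Ico (0 : ℝ) 1 ∧ pos e ((IE e ρ).1 x) = ρ (pos e x)) ∧
    ((IE e ρ).1.symm x ∈ Ico (0 : ℝ) 1 ∧ pos e ((IE e ρ).1.symm x) = ρ.symm (pos e x)) := by
  refine ⟨⟨(ie_mem _ hx).1, ?_⟩, (ie_mem _ hx).1, ?_⟩
  · exact (congrArg e.symm (ie_mem (e.permCongr ρ) hx).2).trans (by simp [pos])
  · exact (congrArg e.symm (ie_mem (e.permCongr ρ).symm hx).2).trans (e.symm_apply_apply _)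

lemma lawp (e : ZMod h ≃ Fin h) (Q : ZMod h → Prop) :
    mu.real {x | Q (pos e x)} = av fun t => ind (Q t) :=
  (law fun u => Q (e.symm u)).trans (av_equiv e.symm fun t => ind (Q t))

lemma fin_div {M : ℕ} [NeZero M] {x : ℝ} (hx : x ∈ Ico (0 : ℝ) 1) :
    (fin (h * M) x).val / M = (fin h x).val := by
  have := hpos M
  rw [fin_val hx, fin_val hx, ← Nat.floor_div_natCast]
  congr 1; push_cast; field_simp

lemma real_congr {S T : Set ℝ} (H : ∀ x ∈ Ico (0 : ℝ) 1, x ∈ S ↔ x ∈ T) : mu.real S = mu.real T :=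
  measureReal_congr (ae_I.mono fun x hx => propext (H x hx))

lemma close {f g : ℝ → ℝ} (hf : MeasurePreserving f mu mu) (hg : MeasurePreserving g mu mu)
    {δ : ℝ} (hδ : mu.real {x | fin h (f x) ≠ fin h (g x)} ≤ δ) :
    dist (koop f hf idL) (koop g hg idL) ≤ 1 / h + √δ := by
  have h0 := hpos h
  have hm : MeasurableSet {x | fin h (f x) ≠ fin h (g x)} :=
    (measurableSet_eq_fun (fin_meas.comp hf.measurable) (fin_meas.comp hg.measurable)).compl
  let a : H := indicatorConstLp 2 MeasurableSet.univ (measure_ne_top mu _) (1 / h : ℝ)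
  let b : H := indicatorConstLp 2 hm (measure_ne_top mu _) (1 : ℝ)
  rw [dist_eq_norm]
  refine (Lp.norm_le_norm_of_ae_le (g := a + b) ?_).trans ((norm_add_le _ _).trans
    (add_le_add ?_ ?_))
  · filter_upwards [Lp.coeFn_sub (koop f hf idL) (koop g hg idL), koop_id hf, koop_id hg,
      Lp.coeFn_add a b, indicatorConstLp_coeFn (p := 2) (hs := MeasurableSet.univ)
        (hμs := measure_ne_top mu _) (c := (1 / h : ℝ)),
      indicatorConstLp_coeFn (p := 2) (hs := hm) (hμs := measure_ne_top mu _) (c := (1 : ℝ)),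
      hf.quasiMeasurePreserving.ae ae_I, hg.quasiMeasurePreserving.ae ae_I]
      with x e1 e2 e3 e4 e5 e6 m1 m2
    rw [e1, Pi.sub_apply, e2, e3, e4, Pi.add_apply, e5, e6, indicator_univ, Real.norm_eq_abs,
      Real.norm_eq_abs]
    refine le_trans ?_ (le_abs_self _)
    have p : 0 < 1 / (h : ℝ) := by positivity
    by_cases c : fin h (f x) = fin h (g x)
    · rw [indicator_of_notMem (not_not.2 c), abs_le]
      have a1 := (cell _ _).1 ⟨m1, c⟩
      have a2 := (cell (h := h) _ _).1 ⟨m2, rfl⟩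
      simp only [mem_Ico, add_div] at a1 a2
      constructor <;> linarith [a1.1, a1.2, a2.1, a2.2]
    · rw [indicator_of_mem c, abs_le]
      constructor <;> linarith [m1.1, m1.2, m2.1, m2.2]
  · rw [norm_indicatorConstLp (by simp) (by simp)]
    simp
  · rw [norm_indicatorConstLp (by simp) (by simp), norm_one, one_mul, Real.sqrt_eq_rpow]
    exact Real.rpow_le_rpow measureReal_nonneg hδ (by norm_num) |>.trans_eq' (by norm_num)

variable {M : ℕ} [NeZero M]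

lemma pos_l {e : ZMod h ≃ Fin h} {e' : ZMod (h * M) ≃ Fin (h * M)} {l : ZMod (h * M) → ZMod h}
    (hl : ∀ t, (e (l t)).val = (e' t).val / M) {x : ℝ} (hx : x ∈ Ico (0 : ℝ) 1) :
    pos e x = l (pos e' x) := by
  apply e.injective
  apply Fin.ext
  rw [hl]
  simp only [pos, Equiv.apply_symm_apply, fin_div hx]

lemma fib_of {e : ZMod h ≃ Fin h} {e' : ZMod (h * M) ≃ Fin (h * M)} {l : ZMod (h * M) → ZMod h}
    (hl : ∀ t, (e (l t)).val = (e' t).val / M) (φ : ZMod h → ℝ) :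
    av (fun t => φ (l t)) = av φ := by
  have : (fun t => φ (l t)) = fun t => (fun x : Fin h × Fin M => φ (e.symm x.1))
      ((e'.trans finProdFinEquiv.symm) t) := funext fun t => by
    congr 1
    rw [Equiv.eq_symm_apply]
    exact Fin.ext (hl t)
  rw [this, av_equiv (e'.trans finProdFinEquiv.symm) fun x : Fin h × Fin M => φ (e.symm x.1),
    av_prod]
  simp only [av_const]
  exact av_equiv e.symm φ

lemma bad_eq {e : ZMod h ≃ Fin h} {e' : ZMod (h * M) ≃ Fin (h * M)} {l : ZMod (h * M) → ZMod h}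
    (hl : ∀ t, (e (l t)).val = (e' t).val / M) (ρ : Equiv.Perm (ZMod h))
    (ρ' : Equiv.Perm (ZMod (h * M))) :
    mu.real {x | fin h ((IE e' ρ').1 x) ≠ fin h ((IE e ρ).1 x)} =
      av fun t => ind (l (ρ' t) ≠ ρ (l t)) := by
  rw [← lawp e' fun t => l (ρ' t) ≠ ρ (l t)]
  refine real_congr fun x hx => not_congr ?_
  rw [← (IE_pos e' ρ' hx).1.2, ← pos_l hl (IE_pos e' ρ' hx).1.1, ← pos_l hl hx,
    ← (IE_pos e ρ hx).1.2]
  exact e.symm.injective.eq_iff.symm

lemma dist_IE {e : ZMod h ≃ Fin h} {e' : ZMod (h * M) ≃ Fin (h * M)} {l : ZMod (h * M) → ZMod h}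
    (hl : ∀ t, (e (l t)).val = (e' t).val / M) {ρ : Equiv.Perm (ZMod h)}
    {ρ' : Equiv.Perm (ZMod (h * M))} {δ : ℝ} (hδ : av (fun t => ind (l (ρ' t) ≠ ρ (l t))) ≤ δ) :
    dist (phi (IE e' ρ')) (phi (IE e ρ)) ≤ 1 / h + √δ := by
  refine max_le (close _ _ ((bad_eq hl ρ ρ').trans_le hδ))
    (close _ _ ((bad_eq hl ρ.symm ρ'.symm).trans_le (le_trans (le_of_eq ?_) hδ)))
  rw [← av_equiv ρ']
  congr 1
  funext t
  rw [Equiv.symm_apply_apply, ne_eq, ne_eq, Equiv.eq_symm_apply, eq_comm (a := ρ _)]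

def comp (S T : G) : G := ⟨T.1.trans S.1, S.2.comp T.2⟩

def inv (S : G) : G := ⟨S.1.symm, S.2.symm S.1⟩

def cj (T S : G) : ℕ → G
  | 0 => S
  | n + 1 => comp (inv T) (comp (cj T S n) T)

lemma cj_eq (T S : G) (n : ℕ) : ⇑(cj T S n).1 = (⇑T.1.symm)^[n] ∘ ⇑S.1 ∘ (⇑T.1)^[n] := by
  induction n with
  | zero => rfl
  | succ n ih =>
    rw [Function.iterate_succ', Function.iterate_succ]
    funext x
    show T.1.symm ((cj T S n).1 (T.1 x)) = _
    rw [ih]; rfl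

lemma cj_pos (e : ZMod h ≃ Fin h) (π : Equiv.Perm (ZMod h)) (n : ℕ) : ∀ x ∈ Ico (0 : ℝ) 1,
    (cj (IE e (Equiv.addRight 1)) (IE e π) n).1 x ∈ Ico (0 : ℝ) 1 ∧
    pos e ((cj (IE e (Equiv.addRight 1)) (IE e π) n).1 x) = π (pos e x + n) - n := by
  induction n with
  | zero => exact fun x hx => by simpa [cj] using (IE_pos e π hx).1
  | succ n ih =>
    intro x hx
    obtain ⟨a1, a2⟩ := (IE_pos e (Equiv.addRight 1) hx).1
    obtain ⟨b1, b2⟩ := ih _ a1
    obtain ⟨c1, c2⟩ := (IE_pos e (Equiv.addRight 1) b1).2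
    refine ⟨c1, c2.trans ?_⟩
    rw [b2, a2]
    simp only [Equiv.addRight_symm, Equiv.coe_addRight]
    push_cast
    rw [add_assoc (pos e x), add_comm 1]; ring

lemma cost_eq (e : ZMod h ≃ Fin h) (π : Equiv.Perm (ZMod h)) (f : ZMod h → Bool) (n : ℕ)
    {A : Set ℝ} (hA : ∀ x ∈ Ico (0 : ℝ) 1, x ∈ A ↔ f (pos e x) = true) :
    mu.real (symmDiff ((cj (IE e (Equiv.addRight 1)) (IE e π) n).1 ⁻¹' A) A) = cost π f n := by
  rw [cost, ← lawp e fun t => f (π (t + n) - n) ≠ f t]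
  refine real_congr fun x hx => ?_
  rw [mem_symmDiff, mem_preimage, hA _ (cj_pos e π n x hx).1, hA x hx, (cj_pos e π n x hx).2,
    mem_setOf_eq]
  cases f (pos e x) <;> simp

end Pool.Agent.H.MP_20f905_an
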