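import Mathlib
import Pool.Agent.H.MP_20f905_an.B
import Pool.Agent.H.MP_20f905_an.C

namespace Pool.Agent.H.MP_20f905_an

open MeasureTheory Set Filter Topology Pool.Agent.H.MP_a7cd30_an

noncomputable instance : PseudoMetricSpace G := PseudoMetricSpace.induced phi inferInstance

instance : CompleteSpace G :=
  (⟨rfl⟩ : IsUniformInducing phi).completeSpace isClosed_range_phi.isComplete

section
variable {ι : Type} {L : Filter ι} {F F' : ι → G} {T S : G}

lemma tk (hF : Tendsto F L (𝓝 T)) (v : H) :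
    Tendsto (fun i => koop (F i).1 (F i).2 v) L (𝓝 (koop T.1 T.2 v)) :=
  tendsto_koop (fun i => (F i).2) T.2 ((continuous_fst.tendsto _).comp
    (((continuous_induced_dom : Continuous phi).tendsto T).comp hF)) v

lemma tend_of (hF : Tendsto (fun i => koop (F i).1 (F i).2 idL) L (𝓝 (koop T.1 T.2 idL))) :
    Tendsto F L (𝓝 T) := by
  refine (⟨rfl⟩ : IsInducing phi).tendsto_nhds_iff.2 (hF.prodMk_nhds ?_)
  have := tendsto_koop (fun i => (F i).2) T.2 hF (koop T.1.symm (T.2.symm T.1) idL)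
  rw [koop_inv, tendsto_iff_dist_tendsto_zero] at this
  rw [tendsto_iff_dist_tendsto_zero]
  refine this.congr fun i => ?_
  rw [← (koop (F i).1 (F i).2).dist_map (koop (F i).1.symm _ idL), koop_inv, dist_comm]

lemma t_inv (hF : Tendsto F L (𝓝 T)) : Tendsto (fun i => inv (F i)) L (𝓝 (inv T)) :=
  tend_of ((continuous_snd.tendsto _).comp
    (((continuous_induced_dom : Continuous phi).tendsto T).comp hF))

lemma koop_comp (S T : G) : koop (comp S T).1 (comp S T).2 idL = koop T.1 T.2 (koop S.1 S.2 idL) :=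
  Lp.ext ((koop_id _).trans (koop_ae T.2 _ (koop_id S.2)).symm)

lemma t_comp (hF : Tendsto F L (𝓝 S)) (hF' : Tendsto F' L (𝓝 T)) :
    Tendsto (fun i => comp (F i) (F' i)) L (𝓝 (comp S T)) := by
  have a := tendsto_iff_dist_tendsto_zero.1 (tk hF idL)
  have b := tendsto_iff_dist_tendsto_zero.1 (tk hF' (koop S.1 S.2 idL))
  have c := a.add b
  rw [add_zero] at c
  refine tend_of (tendsto_iff_dist_tendsto_zero.2 (squeeze_zero (fun _ => dist_nonneg)
    (fun i => ?_) c))
  have := dist_triangle (koop (F' i).1 (F' i).2 (koop (F i).1 (F i).2 idL))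
    (koop (F' i).1 (F' i).2 (koop S.1 S.2 idL)) (koop T.1 T.2 (koop S.1 S.2 idL))
  rw [LinearIsometry.dist_map] at this
  rw [koop_comp, koop_comp]
  exact this

lemma t_cj (hF : Tendsto F L (𝓝 T)) (hF' : Tendsto F' L (𝓝 S)) (n : ℕ) :
    Tendsto (fun i => cj (F i) (F' i) n) L (𝓝 (cj T S n)) := by
  induction n with
  | zero => exact hF'
  | succ n ih => exact t_comp (t_inv hF) (t_comp ih hF)

end

lemma cont_sd {A B : Set ℝ} (hA : MeasurableSet A) (hB : MeasurableSet B) :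
    Continuous fun S : G => mu.real (symmDiff (S.1 ⁻¹' A) B) := by
  have : Continuous fun S : G => dist (koop S.1 S.2 (indicatorConstLp 2 hA (measure_ne_top _ _)
      (1 : ℝ))) (indicatorConstLp 2 hB (measure_ne_top mu _) (1 : ℝ)) ^ 2 :=
    ((continuous_iff_continuousAt.2 fun S => tk tendsto_id _).dist continuous_const).pow 2
  refine this.congr fun S => ?_
  have e : koop S.1 S.2 (indicatorConstLp 2 hA (measure_ne_top _ _) (1 : ℝ)) =
      indicatorConstLp 2 (hA.preimage S.1.measurable) (measure_ne_top _ _) 1 := rfl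
  rw [e, dist_indicatorConstLp_eq_norm, norm_indicatorConstLp (by simp) (by simp), norm_one,
    one_mul, ← Real.rpow_natCast, ← Real.rpow_mul measureReal_nonneg]
  simp

lemma fz_eq : TopologicalSpace.generateFrom {U | ∃ T₀ : G, ∃ A : Set ℝ, MeasurableSet A ∧
    ∃ δ : ℝ, 0 < δ ∧ U = {S : G | mu (symmDiff (S.1 ⁻¹' A) (T₀.1 ⁻¹' A)) < ENNReal.ofReal δ}} =
    (inferInstance : TopologicalSpace G) := by
  refine le_antisymm (le_trans ?_ tau_eq.le) (le_generateFrom ?_)
  · refine le_iInf fun A => le_iInf fun hA => le_iInf fun B => le_iInf fun hB => ?_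
    letI := TopologicalSpace.generateFrom {U | ∃ T₀ : G, ∃ A : Set ℝ, MeasurableSet A ∧
      ∃ δ : ℝ, 0 < δ ∧ U = {S : G | mu (symmDiff (S.1 ⁻¹' A) (T₀.1 ⁻¹' A)) < ENNReal.ofReal δ}}
    refine continuous_iff_le_induced.1 (continuous_iff_continuousAt.2 fun T =>
      Metric.tendsto_nhds.2 fun ε hε => ?_)
    have o : IsOpen {S : G | mu (symmDiff (S.1 ⁻¹' A) (T.1 ⁻¹' A)) < ENNReal.ofReal ε} :=
      TopologicalSpace.isOpen_generateFrom_of_mem ⟨T, A, hA, ε, hε, rfl⟩
    filter_upwards [o.mem_nhds (by simpa using hε)] with S hS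
    refine (abs_measureReal_sub_le_measureReal_symmDiff
      ((hA.preimage S.1.measurable).inter hB).nullMeasurableSet
      ((hA.preimage T.1.measurable).inter hB).nullMeasurableSet).trans_lt
      (lt_of_le_of_lt (measureReal_mono ?_) (ENNReal.toReal_lt_of_lt_ofReal hS))
    intro x hx
    simp only [mem_symmDiff, mem_inter_iff] at hx ⊢
    tauto
  · rintro _ ⟨T, A, hA, δ, hδ, rfl⟩
    convert isOpen_lt (cont_sd hA (hA.preimage T.1.measurable)) (continuous_const (y := δ)) using 2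
    funext S
    rw [Measure.real, ENNReal.lt_ofReal_iff_toReal_lt (measure_ne_top _ _)]

lemma same_cell {h : ℕ} [NeZero h] {x y : ℝ} (hx : x ∈ Ico (0 : ℝ) 1) (hy : y ∈ Ico (0 : ℝ) 1)
    (c : fin h x = fin h y) : dist x y ≤ 1 / h := by
  have a1 := (cell _ _).1 ⟨hx, c⟩
  have a2 := (cell (h := h) _ _).1 ⟨hy, rfl⟩
  simp only [mem_Ico, add_div] at a1 a2
  rw [Real.dist_eq, abs_le]
  constructor <;> linarith [a1.1, a1.2, a2.1, a2.2]

lemma real_mono {S T : Set ℝ} (H : ∀ x ∈ Ico (0 : ℝ) 1, x ∈ S → x ∈ T) : mu.real S ≤ mu.real T :=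
  ENNReal.toReal_mono (measure_ne_top _ _) (measure_mono_ae (ae_I.mono H))

lemma approx {A : Set ℝ} (hA : MeasurableSet A) {ε : ℝ} (hε : 0 < ε) : ∃ H0 : ℕ, ∀ (h : ℕ)
    [NeZero h], H0 ≤ h → ∃ F : Fin h → Prop, mu.real (symmDiff A {x | F (fin h x)}) ≤ ε := by
  have e0 : ENNReal.ofReal (ε / 2) ≠ 0 := by simpa using hε
  obtain ⟨K, k1, k2, k3⟩ := hA.exists_isCompact_sdiff_lt (measure_ne_top mu _) e0
  obtain ⟨U, u1, u2, -, u3⟩ := hA.exists_isOpen_sdiff_lt (measure_ne_top mu _) e0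
  obtain ⟨δ, d0, d1⟩ := k2.exists_cthickening_subset_open u2 (k1.trans u1)
  obtain ⟨H0, h0⟩ := exists_nat_gt (1 / δ)
  refine ⟨H0, fun h _ hh => ⟨fun u => ∃ y ∈ K, y ∈ Ico (0 : ℝ) 1 ∧ fin h y = u, ?_⟩⟩
  refine (real_mono (T := (A \ K) ∪ (U \ A)) fun x hx c => ?_).trans
    ((measureReal_union_le _ _).trans ?_)
  · rcases c with c | ⟨⟨y, y1, y2, y3⟩, c⟩
    · exact Or.inl ⟨c.1, fun k => c.2 ⟨x, k, hx, rfl⟩⟩
    · refine Or.inr ⟨d1 (Metric.mem_cthickening_of_dist_le x y _ _ y1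
        ((same_cell hx y2 y3.symm).trans ?_)), c⟩
      have : (H0 : ℝ) ≤ h := by exact_mod_cast hh
      rw [div_lt_iff₀ d0] at h0
      rw [div_le_iff₀ (hpos h)]
      nlinarith
  · have a : mu.real (A \ K) < ε / 2 := ENNReal.toReal_lt_of_lt_ofReal k3
    have b : mu.real (U \ A) < ε / 2 := ENNReal.toReal_lt_of_lt_ofReal u3
    linarith

lemma fibers {β : Type} [Fintype β] {S : Set ℝ} (hS : MeasurableSet S) (g : ℝ → β)
    (hg : ∀ b, MeasurableSet {x | g x = b}) :
    mu.real S = ∑ b, mu.real (S ∩ {x | g x = b}) := by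
  rw [← measureReal_biUnion_finset (fun a _ b _ hab => disjoint_left.2 fun x p q =>
    hab (p.2.symm.trans q.2)) fun b _ => hS.inter (hg b)]
  congr 1
  ext x; simp

lemma birk (T : G) (h : ℕ) [NeZero h] (c : Fin h → Fin h → Prop) : ∃ σ : Equiv.Perm (Fin h),
    av (fun u => ind (c u (σ u))) ≤ mu.real {x | c (fin h x) (fin h (T.1 x))} := by
  classical
  have h0 := hpos h
  have m1 : ∀ u, MeasurableSet {x | fin h x = u} := fun u => fin_meas (measurableSet_singleton u)
  have m2 : ∀ u, MeasurableSet {x | fin h (T.1 x) = u} := fun u => T.1.measurable (m1 u)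
  have r1 : ∀ u, mu.real {x | fin h x = u} = 1 / h := fun u => by
    rw [law fun v => v = u, av_single, Fintype.card_fin]
  let a : Matrix (Fin h) (Fin h) ℝ := fun u v =>
    h * mu.real ({x | fin h x = u} ∩ {x | fin h (T.1 x) = v})
  obtain ⟨w, w0, w1, w2⟩ := exists_eq_sum_perm_of_mem_doublyStochastic (M := a)
    (mem_doublyStochastic_iff_sum.2 ⟨fun u v => mul_nonneg h0.le measureReal_nonneg, fun u => by
      rw [← Finset.mul_sum, ← fibers (m1 u) _ m2, r1]; field_simp, fun v => by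
      simp only [a, inter_comm {x | fin h x = _}]
      rw [← Finset.mul_sum, ← fibers (m2 v) _ m1,
        show {x | fin h (T.1 x) = v} = T.1 ⁻¹' {x | fin h x = v} from rfl,
        T.2.measureReal_preimage (m1 v).nullMeasurableSet, r1]; field_simp⟩)
  obtain ⟨σ, -, hσ⟩ := Finset.exists_min_image Finset.univ
    (fun σ : Equiv.Perm (Fin h) => av fun u => ind (c u (σ u))) Finset.univ_nonempty
  refine ⟨σ, ?_⟩
  have mc : MeasurableSet {x | c (fin h x) (fin h (T.1 x))} :=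
    (fin_meas.prodMk (fin_meas.comp T.1.measurable))
      (MeasurableSet.of_discrete (s := {p : Fin h × Fin h | c p.1 p.2}))
  have e : mu.real {x | c (fin h x) (fin h (T.1 x))} = ∑ u, ∑ v, ind (c u v) * a u v / h := by
    rw [fibers mc _ m1]
    refine Finset.sum_congr rfl fun u _ => ?_
    rw [fibers (mc.inter (m1 u)) _ m2]
    refine Finset.sum_congr rfl fun v _ => ?_
    by_cases q : c u v
    · rw [ind_pos q, one_mul, mul_div_cancel_left₀ _ h0.ne', inter_assoc, inter_eq_right.2]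
      rintro x ⟨rfl, rfl⟩; exact q
    · rw [ind_neg q, eq_empty_of_forall_notMem (s := _ ∩ {x | fin h (T.1 x) = v})]
      · simp
      · rintro x ⟨⟨p, rfl⟩, rfl⟩; exact q p
  have e2 : ∑ u, ∑ v, ind (c u v) * a u v / h = ∑ τ, w τ * av fun u => ind (c u (τ u)) := by
    simp only [← w2, Matrix.sum_apply, Matrix.smul_apply, smul_eq_mul, Finset.mul_sum,
      Finset.sum_div, av, Fintype.card_fin]
    rw [Finset.sum_comm' (t' := Finset.univ) (s' := fun _ => Finset.univ) (by simp)]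
    refine Eq.trans (Finset.sum_congr rfl fun v _ => Finset.sum_comm) (Finset.sum_comm.trans ?_)
    refine Finset.sum_congr rfl fun τ _ => Finset.sum_comm.trans
      (Finset.sum_congr rfl fun u _ => ?_)
    rw [Finset.sum_eq_single (τ u)]
    · simp [PEquiv.toMatrix_apply]; ring
    · intro v _ hv
      simp [PEquiv.toMatrix_apply, hv.symm]
    · simp
  rw [e, e2]
  refine le_trans (le_of_eq ?_) (Finset.sum_le_sum fun τ _ =>
    mul_le_mul_of_nonneg_left (hσ τ (Finset.mem_univ _)) (w0 τ))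
  rw [← Finset.sum_mul, w1, one_mul]

lemma fe_val (n : ℕ) [NeZero n] (t : ZMod n) : ((ZMod.finEquiv n).symm t).val = t.val := by
  obtain ⟨m, rfl⟩ := Nat.exists_eq_succ_of_ne_zero (NeZero.ne n)
  rfl

lemma cyc {h M : ℕ} [NeZero h] [NeZero M] (σ : Equiv.Perm (Fin h)) :
    ∃ e : ZMod (h * M) ≃ Fin (h * M),
      av (fun t => ind ((e (t + 1)).divNat ≠ σ (e t).divNat)) ≤ 1 / M := by
  have M0 := NeZero.pos M
  let z : ZMod (h * M) ≃ Fin h × Fin M :=
    (ZMod.finEquiv (h * M)).toEquiv.symm.trans finProdFinEquiv.symm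
  have zv : ∀ t, ((z t).1.val = t.val / M) ∧ (z t).2.val = t.val % M := fun t => by
    have := fe_val (h * M) t
    exact ⟨congrArg (· / M) this, congrArg (· % M) this⟩
  let y : Equiv.Perm (Fin h × Fin M) := Equiv.prodCongrLeft fun i => σ ^ i.val
  refine ⟨z.trans (y.trans finProdFinEquiv), ?_⟩
  have d : ∀ t, (finProdFinEquiv (y (z t))).divNat = (σ ^ (z t).2.val) (z t).1 := fun t =>
    congrArg Prod.fst (finProdFinEquiv.symm_apply_apply (y (z t)))
  refine (av_le (g := fun t => ind ((z t).2 = ⟨M - 1, by omega⟩)) fun t => ?_).trans ?_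
  · by_cases c : (z t).2 = ⟨M - 1, by omega⟩
    · rw [ind_pos c]; exact ind_le_one _
    rw [ind_neg c, ind_neg]
    simp only [Equiv.trans_apply, d, not_not]
    have c1 : t.val % M + 1 < M := by
      have := Nat.mod_lt t.val M0
      have : t.val % M ≠ M - 1 := fun q => c (Fin.ext ((zv t).2.trans q))
      omega
    have a := Nat.div_add_mod t.val M
    have b : t.val / M < h := Nat.div_lt_of_lt_mul (mul_comm h M ▸ ZMod.val_lt t)
    have v : (t + 1).val = M * (t.val / M) + (t.val % M + 1) := by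
      have e : t + 1 = ((t.val + 1 : ℕ) : ZMod (h * M)) := by simp
      rw [e, ZMod.val_cast_of_lt (by nlinarith)]; omega
    have e1 : (z (t + 1)).1 = (z t).1 := Fin.ext (by
      rw [(zv _).1, (zv _).1, v, Nat.mul_add_div M0, Nat.div_eq_of_lt c1, add_zero])
    rw [e1, (zv _).2, (zv _).2, v, Nat.mul_add_mod, Nat.mod_eq_of_lt c1, pow_succ']
    rfl
  · rw [av_equiv z fun p => ind (p.2 = ⟨M - 1, by omega⟩), av_prod]
    simp only [av_single, av_const, Fintype.card_fin, le_refl]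

lemma dens0 (T : G) (h k : ℕ) [NeZero h] [NeZero k] : ∃ (h' : ℕ) (_ : NeZero h')
    (e : ZMod h' ≃ Fin h'), h * k ∣ h' ∧ dist (koop _ (IE e (Equiv.addRight 1)).2 idL)
      (koop _ T.2 idL) ≤ 1 / k + √(3 / k) := by
  have k0 := hpos k
  choose H0 hH using fun w : Fin k => approx (T.1.measurable (fin_meas
    (measurableSet_singleton w))) (show (0 : ℝ) < 1 / k ^ 2 by positivity)
  obtain ⟨r, hr⟩ : ∃ r, r = h * (Finset.univ.sup H0 + 1) := ⟨_, rfl⟩
  have r0 : Finset.univ.sup H0 + 1 ≤ r := hr ▸ Nat.le_mul_of_pos_left _ (NeZero.pos h)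
  haveI : NeZero r := ⟨by omega⟩
  choose F hF using fun w => hH w (k * r) (((Finset.le_sup (Finset.mem_univ w)).trans
    (by omega : _ ≤ r)).trans (Nat.le_mul_of_pos_left _ (NeZero.pos k)))
  obtain ⟨σ, hσ⟩ := birk T (k * r) fun u v => ¬ F v.divNat u
  obtain ⟨e, he⟩ := cyc (M := k) σ
  refine ⟨k * r * k, inferInstance, e, hr ▸ ⟨k * (Finset.univ.sup H0 + 1), by ring⟩,
    close _ _ ?_⟩
  have dv : ∀ {a b : ℕ} [NeZero a] [NeZero b], ∀ x ∈ Ico (0 : ℝ) 1,
      (fin (a * b) x).divNat = fin a x := fun x hx => Fin.ext (fin_div hx)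
  let D : Set ℝ := ⋃ w, symmDiff (T.1 ⁻¹' (fin k ⁻¹' {w})) {x | F w (fin (k * r) x)}
  have hD : mu.real D ≤ 1 / k := (measureReal_iUnion_fintype_le _).trans
    ((Finset.sum_le_sum fun w _ => hF w).trans (le_of_eq (by simp; field_simp)))
  have b1 : mu.real {x | ¬ F (fin (k * r) (T.1 x)).divNat (fin (k * r) x)} ≤ mu.real D :=
    ENNReal.toReal_mono (measure_ne_top _ _) (measure_mono_ae
      ((T.2.quasiMeasurePreserving.ae ae_I).mono fun x hx c => mem_iUnion.2
        ⟨fin k (T.1 x), Or.inl ⟨rfl, by rwa [← dv (b := r) _ hx]⟩⟩))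
  rw [← law fun u => ¬ F (σ u).divNat u] at hσ
  rw [← lawp e fun t => (e (t + 1)).divNat ≠ σ (e t).divNat] at he
  refine (real_mono (T := ({x | (e (pos e x + 1)).divNat ≠ σ (e (pos e x)).divNat} ∪
    {x | ¬ F (σ (fin (k * r) x)).divNat (fin (k * r) x)}) ∪ D) fun x hx c => ?_).trans
    ((measureReal_union_le _ _).trans ((add_le_add (measureReal_union_le _ _) le_rfl).trans ?_))
  · by_contra q
    simp only [mem_union, not_or, mem_ofPred_eq, not_not] at q
    obtain ⟨⟨q1, q2⟩, q3⟩ := q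
    obtain ⟨p1, p2⟩ := (IE_pos e (Equiv.addRight 1) hx).1
    rw [← show pos e _ = pos e x + 1 from p2] at q1
    simp only [pos, Equiv.apply_symm_apply, dv _ hx, dv _ p1] at q1
    rw [← q1, dv _ p1] at q2
    exact q3 (mem_iUnion.2 ⟨_, Or.inr ⟨q2, fun z => c (mem_singleton_iff.1 z).symm⟩⟩)
  · have : (3 : ℝ) / k = 1 / k + 1 / k + 1 / k := by ring
    linarith

lemma dens (T : G) (h : ℕ) [NeZero h] {ε : ℝ} (hε : 0 < ε) : ∃ (M : ℕ) (_ : NeZero M)
    (e : ZMod (h * M) ≃ Fin (h * M)), 2 ≤ M ∧ 1 / ((h * M : ℕ) : ℝ) ≤ ε ∧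
      dist (IE e (Equiv.addRight 1)) T < ε := by
  choose h' i e a b using fun k : ℕ => dens0 T h (k + 1)
  have t0 : Tendsto (fun k : ℕ => 1 / ((k + 1 : ℕ) : ℝ)) atTop (𝓝 0) := by
    simpa using tendsto_one_div_add_atTop_nhds_zero_nat (𝕜 := ℝ)
  have t1 : Tendsto (fun k => IE (e k) (Equiv.addRight 1)) atTop (𝓝 T) := by
    refine tend_of (tendsto_iff_dist_tendsto_zero.2 (squeeze_zero (fun _ => dist_nonneg) b ?_))
    have := t0.add (t0.const_mul 3).sqrt
    simpa [div_eq_mul_inv] using this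
  obtain ⟨k, k1, k2, k3⟩ := ((Metric.tendsto_nhds.1 t1 ε hε).and
    ((t0.eventually (ge_mem_nhds hε)).and (eventually_ge_atTop 1))).exists
  obtain ⟨m, hm⟩ := a k
  rw [mul_assoc] at hm
  have key : ∀ (n : ℕ) (j : NeZero n) (e' : ZMod n ≃ Fin n), n = h * ((k + 1) * m) →
      dist (IE e' (Equiv.addRight 1)) T < ε → ∃ (M : ℕ) (_ : NeZero M)
      (e : ZMod (h * M) ≃ Fin (h * M)), 2 ≤ M ∧ 1 / ((h * M : ℕ) : ℝ) ≤ ε ∧
      dist (IE e (Equiv.addRight 1)) T < ε := ?_
  · exact key _ (i k) (e k) hm k1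
  rintro _ j e' rfl k1
  have m0 : 0 < m := Nat.pos_of_ne_zero fun z => NeZero.ne (h * ((k + 1) * m)) (by simp [z])
  refine ⟨(k + 1) * m, ⟨by positivity⟩, e', by nlinarith, le_trans ?_ k2, k1⟩
  refine one_div_le_one_div_of_le (by positivity) ?_
  exact_mod_cast (Nat.le_mul_of_pos_right _ m0).trans (Nat.le_mul_of_pos_left _ (NeZero.pos h))

end Pool.Agent.H.MP_20f905_an
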