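import Mathlib
import Pool.Agent.H.MP_20f905_an.D

namespace Pool.Agent.H.MP_20f905_an

open MeasureTheory Set Filter Topology Pool.Agent.H.MP_a7cd30_an

lemma one {h h' : ℕ} [NeZero h] [NeZero h'] {l : ZMod h' → ZMod h} {π : Equiv.Perm (ZMod h)}
    {π' : Equiv.Perm (ZMod h')} {θ δ η : ℝ} {N : ℕ} (H : Step l π π' θ δ) (d0 : 0 < δ)
    (e0 : 0 < η) (e1 : η ≤ 1) (d1 : (6 * h + 4 * N) * δ ≤ η ^ 2) :
    √(2 * h * δ) ≤ η ∧ ∀ f : ZMod h → Bool,
      (∀ n ≤ N, |cost π' (fun t => f (l t)) n - cost π f n| ≤ η) ∧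
      (∀ N' : ℕ, ∑ n ∈ Finset.range N', cost π' (fun t => f (l t)) (n + 1) ≤
        N' * (cc π f + θ + η) + 2 * h) ∧
      cc π' (fun t => f (l t)) ≤ (1 - θ) * cc π f + 2 * θ ^ 2 + η := by
  have a : 0 ≤ h * δ := by positivity
  have b : 0 ≤ N * δ := by positivity
  have c : η ^ 2 ≤ η := by nlinarith
  refine ⟨Real.sqrt_le_iff.2 ⟨e0.le, by linarith⟩, fun f => ⟨fun n hn => ?_, fun N' => ?_, ?_⟩⟩
  · refine (G1 H.1 H.2.1 H.2.2.1 f n).trans ?_
    have : (n : ℝ) * δ ≤ N * δ := mul_le_mul_of_nonneg_right (by exact_mod_cast hn) d0.le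
    linarith
  · refine ((H.2.2.2 f).1 N').trans (add_le_add
      (mul_le_mul_of_nonneg_left (by linarith) (Nat.cast_nonneg _)) le_rfl)
  · exact (H.2.2.2 f).2.trans (by linarith)

lemma small (K : ℝ) {a b : ℝ} (ha : 0 < a) (hb : 0 < b) (hK : 0 < K) :
    ∃ δ, 0 < δ ∧ K * δ ≤ a ∧ δ ≤ b :=
  ⟨min (a / K) b, lt_min (by positivity) hb, by
    rw [mul_comm, ← le_div_iff₀ hK]; exact min_le_left _ _, min_le_right _ _⟩

lemma near (T : G) (h : ℕ) [NeZero h] {δ : ℝ} (d0 : 0 < δ) :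
    ∀ᶠ T' in 𝓝 T, mu.real {x | fin h (T'.1 x) ≠ fin h (T.1 x)} ≤ δ := by
  have m : ∀ u : Fin h, MeasurableSet (fin h ⁻¹' {u}) := fun u =>
    fin_meas (measurableSet_singleton u)
  have c : Continuous fun T' : G => ∑ u : Fin h,
      mu.real (symmDiff (T'.1 ⁻¹' (fin h ⁻¹' {u})) (T.1 ⁻¹' (fin h ⁻¹' {u}))) :=
    continuous_finsetSum _ fun u _ => cont_sd (m u) (T.1.measurable (m u))
  filter_upwards [(c.tendsto T).eventually (ge_mem_nhds (by simpa using d0))] with T' hT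
  refine le_trans ((measureReal_mono fun x hx => mem_iUnion.2
    ⟨fin h (T'.1 x), Or.inl ⟨rfl, fun z => hx (mem_singleton_iff.1 z).symm⟩⟩).trans
    (measureReal_iUnion_fintype_le _)) hT

structure St where
  h : ℕ
  ne : NeZero h
  e : ZMod h ≃ Fin h
  π : Equiv.Perm (ZMod h)
  O : Set G
  o : IsOpen O
  m : IE e (Equiv.addRight 1) ∈ O

instance (s : St) : NeZero s.h := s.ne

noncomputable def St.T (s : St) : G := IE s.e (Equiv.addRight 1)

noncomputable def St.S (s : St) : G := IE s.e s.π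

noncomputable def cst (T S : G) (A : Set ℝ) (n : ℕ) : ℝ :=
  mu.real (symmDiff ((cj T S n).1 ⁻¹' A) A)

def St.P (s : St) (A : Set ℝ) (c : ℝ) : Prop :=
  ∃ f : ZMod s.h → Bool, (∀ x ∈ Ico (0 : ℝ) 1, x ∈ A ↔ f (pos s.e x) = true) ∧ cc s.π f ≤ c

def Nx (s s' : St) (U : Set G) (θ η : ℝ) (N0 : ℕ) : Prop :=
  closure s'.O ⊆ U ∩ s.O ∧ dist s'.T s.T ≤ η ∧ dist s'.S s.S ≤ 2 / s.h + 2 * η ∧
    2 * s.h ≤ s'.h ∧ ∀ A c, s.P A c → s'.P A ((1 - θ) * c + 2 * θ ^ 2 + 2 * η) ∧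
      (∀ n ≤ N0, |cst s'.T s'.S A n - cst s.T s.S A n| ≤ 2 * η) ∧
      ∀ N : ℕ, ∑ n ∈ Finset.range N, cst s'.T s'.S A (n + 1) ≤ N * (c + θ + 3 * η) + 2 * s.h

lemma stage (s : St) {U : Set G} (hU : IsOpen U) (dU : Dense U) (Θ : ℕ) (hΘ : 0 < Θ) {η : ℝ}
    (e0 : 0 < η) (e1 : η ≤ 1) (N0 : ℕ) : ∃ s' : St, Nx s s' U (1 / Θ) η N0 := by
  obtain ⟨h, ne, e, π, O, o, m⟩ := s
  have h0 := hpos h
  have e2 : η ^ 2 ≤ 1 := by nlinarith
  obtain ⟨δ, d0, d1, -⟩ := small (6 * h + 4 * N0) (pow_pos e0 2) e0 (by positivity)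
  have w1 : ∀ᶠ T' in 𝓝 (IE e (Equiv.addRight 1)), T' ∈ O := o.mem_nhds m
  have w2 : ∀ᶠ T' in 𝓝 (IE e (Equiv.addRight 1)), dist T' (IE e (Equiv.addRight 1)) ≤ η :=
    Metric.closedBall_mem_nhds _ e0
  obtain ⟨V, v1, v2, v3⟩ := mem_nhds_iff.1 ((near (IE e (Equiv.addRight 1)) h d0).and (w1.and w2))
  obtain ⟨T, tV, tU⟩ := dU.inter_open_nonempty V v2 ⟨_, v3⟩
  obtain ⟨ρ, r0, r1⟩ := Metric.nhds_basis_closedBall.mem_iff.1 ((v2.inter hU).mem_nhds ⟨tV, tU⟩)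
  obtain ⟨M, nM, e', M2, a1, a2⟩ := dens T h (show 0 < ρ / 3 by positivity)
  let l : ZMod (h * M) → ZMod h := fun t => e.symm (e' t).divNat
  have hl : ∀ t, (e (l t)).val = (e' t).val / M := fun t => by
    simp only [l, Equiv.apply_symm_apply]; rfl
  have b := (v1 (r1 (show IE e' (Equiv.addRight 1) ∈ Metric.closedBall T ρ from
    a2.le.trans (by linarith))).1).1
  rw [bad_eq hl] at b
  have dN : 0 ≤ N0 * δ := by positivity
  have dh : 0 ≤ h * δ := by positivity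
  obtain ⟨π', H⟩ := stepE π (fib_of hl) b (by linarith)
  obtain ⟨p1, p2⟩ := one H d0 e0 e1 d1
  have h1 := hpos (h * M)
  obtain ⟨N1, n1⟩ := exists_nat_ge (2 * (h * M : ℕ) / η)
  obtain ⟨δ', d0', d1', d2'⟩ := small (6 * (h * M : ℕ) + 4 * (N0 + N1 : ℕ)) (pow_pos e0 2)
    (show 0 < (ρ / 3) ^ 2 by positivity) (by positivity)
  have dN' : 0 ≤ (N0 + N1 : ℕ) * δ' := by positivity
  have dh' : 0 ≤ (h * M : ℕ) * δ' := by positivity
  obtain ⟨q, nq, E, π'', H'⟩ := stepC π' Θ hΘ d0' (by linarith)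
  obtain ⟨q1, q2⟩ := one H' d0' e0 e1 d1'
  let e'' : ZMod (h * M * q) ≃ Fin (h * M * q) :=
    E.trans ((e'.prodCongr (Equiv.refl _)).trans finProdFinEquiv)
  have hl' : ∀ t, (e' (E t).1).val = (e'' t).val / q := fun t =>
    congrArg (fun p => p.1.val) (finProdFinEquiv.symm_apply_apply (e' (E t).1, (E t).2)).symm
  have m' : IE e'' (Equiv.addRight 1) ∈ Metric.ball T ρ := by
    have a : dist (IE e'' (Equiv.addRight 1)) (IE e' (Equiv.addRight 1)) ≤ _ :=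
      dist_IE hl' (ρ := Equiv.addRight 1) (ρ' := Equiv.addRight 1) H'.2.1
    have b : √δ' ≤ ρ / 3 := Real.sqrt_le_iff.2 ⟨by positivity, d2'⟩
    exact (dist_triangle _ (IE e' (Equiv.addRight 1)) _).trans_lt (by linarith)
  have hM : h ≤ h * M := Nat.le_mul_of_pos_right _ (by omega)
  have t0 : (0 : ℝ) < 1 / Θ := by positivity
  have t1 : (1 : ℝ) / Θ ≤ 1 := div_le_one_of_le₀ (by exact_mod_cast hΘ) (by positivity)
  refine ⟨⟨h * M * q, inferInstance, e'', π'', Metric.ball T ρ, Metric.isOpen_ball, m'⟩,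
    fun x hx => ?_, (v1 (r1 (Metric.ball_subset_closedBall m')).1).2.2, ?_, ?_, ?_⟩
  · have := r1 (Metric.closure_ball_subset_closedBall hx)
    exact ⟨this.2, (v1 this.1).2.1⟩
  · have a : dist (IE e'' π'') (IE e' π') ≤ _ := dist_IE hl' H'.2.2.1
    have b : dist (IE e' π') (IE e π) ≤ _ := dist_IE hl H.2.2.1
    have c : 1 / ((h * M : ℕ) : ℝ) ≤ 1 / h := one_div_le_one_div_of_le h0 (by exact_mod_cast hM)
    show dist (IE e'' π'') (IE e π) ≤ 2 / (h : ℝ) + 2 * η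
    refine (dist_triangle _ (IE e' π') _).trans ?_
    have : 2 / (h : ℝ) = 1 / h + 1 / h := by ring
    linarith
  · exact (show 2 * h ≤ h * M by nlinarith).trans (Nat.le_mul_of_pos_right _ (NeZero.pos q))
  · rintro A c ⟨f, f1, f2⟩
    have f3 : ∀ x ∈ Ico (0 : ℝ) 1, x ∈ A ↔ f (l (E (pos e'' x)).1) = true := fun x hx => by
      rw [← pos_l hl' hx, ← pos_l hl hx]; exact f1 x hx
    obtain ⟨x1, x2, x3⟩ := p2 f
    obtain ⟨y1, y2, y3⟩ := q2 fun t => f (l t)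
    have z : ∀ n, cst (IE e'' (Equiv.addRight 1)) (IE e'' π'') A n =
        cost π'' (fun t => f (l (E t).1)) n := fun n => cost_eq e'' π'' _ n f3
    have f4 : cc π f ≤ c := f2
    refine ⟨⟨fun t => f (l (E t).1), f3, y3.trans ?_⟩, fun n hn => ?_, fun N => ?_⟩
    · nlinarith
    · have a := abs_le.1 (x1 n hn)
      have b := abs_le.1 (y1 n (by omega))
      have c : cst (IE e (Equiv.addRight 1)) (IE e π) A n = _ := cost_eq e π f n f1
      show |cst (IE e'' (Equiv.addRight 1)) (IE e'' π'') A n -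
        cst (IE e (Equiv.addRight 1)) (IE e π) A n| ≤ _
      rw [z, c, abs_le]
      constructor <;> linarith [a.1, a.2, b.1, b.2]
    · show ∑ n ∈ Finset.range N, cst (IE e'' (Equiv.addRight 1)) (IE e'' π'') A (n + 1) ≤
        N * (c + 1 / Θ + 3 * η) + 2 * (h : ℝ)
      simp only [z]
      have N0' : (0 : ℝ) ≤ N := Nat.cast_nonneg _
      rcases le_total N N1 with hN | hN
      · refine (Finset.sum_le_sum (g := fun n => cost π' (fun t => f (l t)) (n + 1) + η)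
          fun n hn => ?_).trans ?_
        · have := Finset.mem_range.1 hn
          linarith [(abs_le.1 (y1 (n + 1) (by omega))).2]
        · rw [Finset.sum_add_distrib, Finset.sum_const, Finset.card_range, nsmul_eq_mul]
          have := x2 N
          have := mul_le_mul_of_nonneg_left (show cc π f + 0 + η + η ≤ c + 1 / Θ + 3 * η by
            linarith) N0'
          linarith
      · have a : (N1 : ℝ) ≤ N := by exact_mod_cast hN
        rw [div_le_iff₀ e0] at n1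
        have := mul_le_mul_of_nonneg_left (show cc π' (fun t => f (l t)) + 1 / Θ + η + η ≤
          c + 1 / Θ + 3 * η by linarith) N0'
        have := mul_le_mul_of_nonneg_right a e0.le
        linarith [y2 N]

end Pool.Agent.H.MP_20f905_an
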