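import Mathlib
import Pool.Agent.H.MP_20f905_an.E

namespace Pool.Agent.H.MP_20f905_an

open MeasureTheory Set Filter Topology Pool.Agent.H.MP_a7cd30_an

lemma St.P.mono {s : St} {A : Set ℝ} {c d : ℝ} (H : s.P A c) (h : c ≤ d) : s.P A d :=
  H.imp fun _ a => ⟨a.1, a.2.trans h⟩

lemma St.P.one {s : St} {A : Set ℝ} {c : ℝ} (H : s.P A c) : s.P A 1 :=
  H.imp fun _ a => ⟨a.1, cc_le _ _⟩

noncomputable def th (j : ℕ) : ℝ := 1 / ((j + 2 : ℕ) : ℝ)

noncomputable def et (j : ℕ) : ℝ := min ((1 / 2) ^ (j + 3)) (th j ^ 2)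

lemma th_pos (j : ℕ) : 0 < th j := by unfold th; positivity

lemma th_le (j : ℕ) : th j ≤ 1 := div_le_one_of_le₀ (by exact_mod_cast (by omega)) (by positivity)

lemma et_pos (j : ℕ) : 0 < et j := lt_min (by positivity) (pow_pos (th_pos j) 2)

lemma et1 (j : ℕ) : 8 * et j ≤ (1 / 2) ^ j := by
  have : et j ≤ (1 / 2) ^ (j + 3) := min_le_left _ _
  rw [pow_add] at this; linarith

lemma et2 (j : ℕ) : et j ≤ th j ^ 2 := min_le_right _ _

lemma et3 (j : ℕ) : et j ≤ th j := (et2 j).trans (by nlinarith [th_pos j, th_le j])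

section
variable {s : ℕ → St} {U : ℕ → Set G}
  (hs : ∀ j, Nx (s j) (s (j + 1)) (U j) (th j) (et j) ((s j).h * 2 ^ j))
include hs

lemma h_ge (j : ℕ) : 2 ^ j ≤ (s j).h := by
  induction j with
  | zero => exact NeZero.pos (s 0).h
  | succ j ih => have := (hs j).2.2.2.1; omega

lemma N_lt (j : ℕ) : (s j).h * 2 ^ j < (s (j + 1)).h * 2 ^ (j + 1) := by
  have a := (hs j).2.2.2.1
  have b := NeZero.pos (s j).h
  have c := Nat.two_pow_pos j
  rw [pow_succ]; nlinarith

lemma P_add {A : Set ℝ} {j : ℕ} (H : (s j).P A 1) (k : ℕ) : (s (j + k)).P A 1 := by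
  induction k with
  | zero => exact H
  | succ k ih => exact ((hs _).2.2.2.2 A 1 ih).1.one

lemma P_small {A : Set ℝ} {j : ℕ} (H : (s j).P A 1) {ε : ℝ} (hε : 4 * th j ≤ ε) (k : ℕ) :
    (s (j + k)).P A (ε + (j + 1) / (j + k + 1)) := by
  induction k with
  | zero =>
    refine H.mono ?_
    rw [Nat.cast_zero, add_zero, div_self (by positivity)]
    linarith [th_pos j]
  | succ k ih =>
    refine ((hs _).2.2.2.2 A _ ih).1.mono ?_
    have a := et2 (j + k)
    have b : th (j + k) ≤ th j := one_div_le_one_div_of_le (by positivity) (by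
      exact_mod_cast (by omega))
    have c : (1 - th (j + k)) * ((j + 1) / (j + k + 1)) = (j + 1) / (j + (k + 1 : ℕ) + 1) := by
      unfold th; push_cast; field_simp; ring
    rw [mul_add, c]
    nlinarith [th_pos (j + k)]

lemma lims : ∃ T S : G, Tendsto (fun j => (s j).T) atTop (𝓝 T) ∧
    Tendsto (fun j => (s j).S) atTop (𝓝 S) ∧ ∀ j, T ∈ U j := by
  obtain ⟨T, hT⟩ := cauchySeq_tendsto_of_complete (cauchySeq_of_le_geometric (1 / 2) 1
    (by norm_num) (f := fun j => (s j).T) fun j => by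
      rw [dist_comm]; linarith [(hs j).2.1, et1 j, et_pos j])
  obtain ⟨S, hS⟩ := cauchySeq_tendsto_of_complete (cauchySeq_of_le_geometric (1 / 2) 3
    (by norm_num) (f := fun j => (s j).S) fun j => by
      have a : (2 : ℝ) / (s j).h ≤ 2 * (1 / 2) ^ j := by
        rw [one_div_pow, mul_one_div]
        exact div_le_div_of_nonneg_left (by norm_num) (by positivity) (by exact_mod_cast h_ge hs j)
      have : (0 : ℝ) < (1 / 2) ^ j := by positivity
      rw [dist_comm]; linarith [(hs j).2.2.1, et1 j])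
  have m : Antitone fun j => (s j).O :=
    antitone_nat_of_succ_le fun j x hx => ((hs j).1 (subset_closure hx)).2
  exact ⟨T, S, hT, hS, fun j => ((hs j).1 (mem_closure_of_tendsto hT
    ((eventually_ge_atTop (j + 1)).mono fun i hi => m hi (s i).m))).1⟩

variable {T S : G} (hT : Tendsto (fun j => (s j).T) atTop (𝓝 T))
  (hS : Tendsto (fun j => (s j).S) atTop (𝓝 S))
include hT hS

lemma tail {A : Set ℝ} (hA : MeasurableSet A) {j : ℕ} (H : (s j).P A 1) {n : ℕ}
    (hn : n ≤ (s j).h * 2 ^ j) : |cst T S A n - cst (s j).T (s j).S A n| ≤ (1 / 2) ^ j / 2 := by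
  have a : ∀ k, |cst (s (k + j)).T (s (k + j)).S A n - cst (s j).T (s j).S A n| ≤
      (1 / 2) ^ j / 2 - (1 / 2) ^ (k + j) / 2 := fun k => by
    rw [add_comm]
    induction k with
    | zero => simp
    | succ k ih =>
      have b := ((hs _).2.2.2.2 A 1 (P_add hs H k)).2.1 n
        (hn.trans ((strictMono_nat_of_lt_succ (N_lt hs)).monotone (Nat.le_add_right j k)))
      refine (abs_sub_le _ _ _).trans ((add_le_add b ih).trans ?_)
      rw [← add_assoc, pow_succ]
      linarith [et1 (j + k)]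
  have b : Tendsto (fun j => cst (s j).T (s j).S A n) atTop (𝓝 (cst T S A n)) :=
    ((cont_sd hA hA).tendsto _).comp (t_cj hT hS n)
  refine le_of_tendsto' (((tendsto_add_atTop_iff_nat j).2 b).sub_const _).abs fun k => ?_
  exact (a k).trans (sub_le_self _ (by positivity))

lemma ces0 {A : Set ℝ} (hA : MeasurableSet A) {j0 : ℕ} (H : (s j0).P A 1) {ε : ℝ} (hε : 0 < ε) :
    ∀ᶠ N : ℕ in atTop, ∑ n ∈ Finset.range N, cst T S A (n + 1) ≤ N * (9 * ε) := by
  have t0 : Tendsto th atTop (𝓝 0) :=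
    (tendsto_add_atTop_iff_nat 2).2 tendsto_one_div_atTop_nhds_zero_nat
  obtain ⟨j1, a1, a2⟩ := ((eventually_ge_atTop j0).and
    (t0.eventually (ge_mem_nhds (show 0 < ε / 4 by positivity)))).exists
  obtain ⟨k0, rfl⟩ := Nat.exists_eq_add_of_le a1
  have H1 := P_add hs H k0
  generalize j0 + k0 = j1 at *
  have t1 : Tendsto (fun j : ℕ => ((j1 : ℝ) + 1) / (j + 1)) atTop (𝓝 0) := by
    simpa [div_eq_mul_inv] using
      (tendsto_one_div_add_atTop_nhds_zero_nat (𝕜 := ℝ)).const_mul ((j1 : ℝ) + 1)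
  obtain ⟨j2, b⟩ := eventually_atTop.1 ((eventually_ge_atTop j1).and
    ((t0.eventually (ge_mem_nhds hε)).and ((t1.eventually (ge_mem_nhds hε)).and
    ((tendsto_pow_atTop_nhds_zero_of_lt_one (r := (1 / 2 : ℝ)) (by norm_num)
      (by norm_num)).eventually (ge_mem_nhds hε)))))
  have key : ∀ j ≥ j2, ∀ N, (s j).h * 2 ^ j ≤ N → N ≤ (s (j + 1)).h * 2 ^ (j + 1) →
      ∑ n ∈ Finset.range N, cst T S A (n + 1) ≤ N * (9 * ε) := by
    intro j hj N n1 n2
    obtain ⟨b1, b2, b3, b4⟩ := b j hj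
    obtain ⟨k, rfl⟩ := Nat.exists_eq_add_of_le b1
    have c := ((hs _).2.2.2.2 A _ (P_small hs H1 (ε := ε) (by linarith) k)).2.2 N
    have N0 : (0 : ℝ) ≤ N := Nat.cast_nonneg _
    refine (Finset.sum_le_sum (g := fun n => cst (s (j1 + k + 1)).T (s (j1 + k + 1)).S A (n + 1)
      + ε) fun n hn => ?_).trans ?_
    · have := (abs_le.1 (tail hs hT hS hA (P_add hs H1 (k + 1)) (n := n + 1)
        (le_trans (Finset.mem_range.1 hn) n2))).2
      rw [← add_assoc, pow_succ] at this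
      linarith
    · rw [Finset.sum_add_distrib, Finset.sum_const, Finset.card_range, nsmul_eq_mul]
      push_cast at b3
      have d := mul_le_mul_of_nonneg_left (show ε + (j1 + 1) / (j1 + k + 1) + th (j1 + k) +
        3 * et (j1 + k) ≤ 6 * ε by linarith [et3 (j1 + k)]) N0
      have e : ((s (j1 + k)).h : ℝ) ≤ N * (1 / 2) ^ (j1 + k) := by
        rw [one_div_pow, mul_one_div, le_div_iff₀ (by positivity)]
        exact_mod_cast n1
      have := mul_le_mul_of_nonneg_left b4 N0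
      linarith
  have all : ∀ k N, (s j2).h * 2 ^ j2 ≤ N → N ≤ (s (j2 + k)).h * 2 ^ (j2 + k) →
      ∑ n ∈ Finset.range N, cst T S A (n + 1) ≤ N * (9 * ε) := fun k => by
    induction k with
    | zero => exact fun N n1 n2 => key j2 le_rfl N n1 (n2.trans (N_lt hs j2).le)
    | succ k ih =>
      intro N n1 n2
      rcases le_total N ((s (j2 + k)).h * 2 ^ (j2 + k)) with c | c
      · exact ih N n1 c
      · exact key _ (Nat.le_add_right _ _) N c n2
  refine (eventually_ge_atTop _).mono fun N hN => all N N hN ?_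
  exact (Nat.le_add_left N j2).trans (strictMono_nat_of_lt_succ (N_lt hs)).le_apply

lemma ces {A : Set ℝ} (hA : MeasurableSet A) {ε : ℝ} (hε : 0 < ε) :
    ∀ᶠ N : ℕ in atTop, ∑ n ∈ Finset.range N, cst T S A (n + 1) ≤ N * (11 * ε) := by
  classical
  obtain ⟨j, hj⟩ := approx hA hε
  obtain ⟨F, hF⟩ := hj (s j).h (Nat.lt_two_pow_self.le.trans (h_ge hs j))
  have m : MeasurableSet {x | F (fin (s j).h x)} :=
    fin_meas (MeasurableSet.of_discrete (s := {u | F u}))
  filter_upwards [ces0 hs hT hS m (j0 := j) ⟨fun t => decide (F ((s j).e t)),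
    fun x _ => by simp [pos], cc_le _ _⟩ hε] with N hN
  refine (Finset.sum_le_sum (g := fun n => cst T S {x | F (fin (s j).h x)} (n + 1) + 2 * ε)
    fun n _ => ?_).trans ?_
  · generalize {x | F (fin (s j).h x)} = B at *
    unfold cst
    generalize cj T S (n + 1) = W
    have a := W.2.measureReal_preimage (hA.symmDiff m).nullMeasurableSet
    refine (measureReal_mono (s₂ := (symmDiff (W.1 ⁻¹' B) B ∪ W.1 ⁻¹' (symmDiff A B)) ∪
      symmDiff A B) fun x hx => ?_).trans ((measureReal_union_le _ _).trans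
      ((add_le_add (measureReal_union_le _ _) le_rfl).trans (by linarith)))
    simp only [mem_union, mem_symmDiff, mem_preimage] at hx ⊢
    tauto
  · rw [Finset.sum_add_distrib, Finset.sum_const, Finset.card_range, nsmul_eq_mul]
    linarith

end

lemma markov (γ : ℕ → ℝ) (h0 : ∀ n, 0 ≤ γ n)
    (H : ∀ ε, 0 < ε → ∀ᶠ N : ℕ in atTop, ∑ n ∈ Finset.range N, γ (n + 1) ≤ N * (11 * ε))
    {ε : ℝ} (hε : 0 < ε) (Q : ℕ → Prop) [DecidablePred Q] (hQ : ∀ n, γ n < ε → Q n) :
    Tendsto (fun N : ℕ => (((Finset.Icc 1 N).filter Q).card : ℝ) / N) atTop (𝓝 1) := by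
  refine Metric.tendsto_nhds.2 fun κ k0 => ?_
  filter_upwards [H (ε * κ / 22) (by positivity), eventually_gt_atTop 0] with N hN N0
  have n0 : (0 : ℝ) < N := by exact_mod_cast N0
  have a : (((Finset.Icc 1 N).filter Q).card : ℝ) ≤ N := by
    exact_mod_cast (Finset.card_filter_le _ _).trans (by simp)
  have b : ∑ n ∈ Finset.Icc 1 N, ε ≤ ∑ n ∈ Finset.Icc 1 N, (ε * (if Q n then 1 else 0) + γ n) :=
    Finset.sum_le_sum fun n _ => by
      split_ifs with c
      · linarith [h0 n]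
      · linarith [not_lt.1 (mt (hQ n) c)]
  rw [Finset.sum_add_distrib, ← Finset.mul_sum, Finset.sum_boole, Finset.sum_const, Nat.card_Icc,
    nsmul_eq_mul, Nat.add_sub_cancel, ← Finset.Ico_add_one_right_eq_Icc,
    Finset.sum_Ico_eq_sum_range γ, Finset.Ico_add_one_right_eq_Icc, Nat.add_sub_cancel] at b
  simp only [add_comm 1] at b
  rw [Real.dist_eq, abs_sub_comm, abs_of_nonneg (sub_nonneg.2 (div_le_one_of_le₀ a n0.le)),
    sub_lt_comm, lt_div_iff₀ n0]
  have : 0 < N * κ := by positivity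
  nlinarith

noncomputable def s0 : St :=
  ⟨2, inferInstance, Equiv.refl _, Equiv.addRight 1, univ, isOpen_univ, mem_univ _⟩

theorem main (U : ℕ → Set G) (hU : ∀ j, IsOpen (U j)) (dU : ∀ j, Dense (U j)) :
    ∃ T S : G, (∀ j, T ∈ U j) ∧ (¬ ∀ᵐ x ∂mu, S.1 x = x) ∧ ∀ A, MeasurableSet A → ∀ ε, 0 < ε →
      ∀ᶠ N : ℕ in atTop, ∑ n ∈ Finset.range N, cst T S A (n + 1) ≤ N * (11 * ε) := by
  choose nx hx using fun (j : ℕ) (s : St) => stage s (hU j) (dU j) (j + 2) (by omega) (et_pos j)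
    ((et3 j).trans (th_le j)) (s.h * 2 ^ j)
  let s : ℕ → St := fun j => Nat.rec s0 nx j
  have hs : ∀ j, Nx (s j) (s (j + 1)) (U j) (th j) (et j) ((s j).h * 2 ^ j) := fun j => hx j (s j)
  obtain ⟨T, S, hT, hS, m⟩ := lims hs
  refine ⟨T, S, m, fun c => ?_, fun A hA ε hε => ces hs hT hS hA hε⟩
  have f1 : ∀ x ∈ Ico (0 : ℝ) 1, x ∈ {x | pos s0.e x = 0} ↔ decide (pos s0.e x = 0) = true :=
    fun x _ => by simp
  have hA : MeasurableSet {x | pos s0.e x = 0} :=
    fin_meas (MeasurableSet.of_discrete (s := {u | s0.e.symm u = 0}))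
  have p : s0.P {x | pos s0.e x = 0} 1 := ⟨fun t => decide (t = 0), f1, cc_le _ _⟩
  have a := (abs_le.1 (tail hs hT hS hA (j := 0) p (Nat.zero_le _))).1
  have b0 : cost (Equiv.addRight (1 : ZMod 2)) (fun t => decide (t = 0)) 0 = 1 := by
    rw [← av_const (α := ZMod 2) 1, cost]
    congr 1
    funext t
    exact ind_pos (by revert t; decide)
  have b : cst (s 0).T (s 0).S {x | pos s0.e x = 0} 0 = 1 :=
    (cost_eq s0.e s0.π (fun t => decide (t = 0)) 0 f1).trans b0
  have d : cst T S {x | pos s0.e x = 0} 0 = 0 := by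
    rw [cst, measureReal_congr (t := ∅) (c.mono fun x hx => ?_), measureReal_empty]
    have : (cj T S 0).1 x = x := hx
    refine propext ⟨fun z => ?_, fun z => z.elim⟩
    have z' : x ∈ symmDiff ((cj T S 0).1 ⁻¹' {x | pos s0.e x = 0}) {x | pos s0.e x = 0} := z
    rw [mem_symmDiff, mem_preimage, this] at z'
    tauto
  rw [b, d] at a
  norm_num at a

end Pool.Agent.H.MP_20f905_an
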